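import Pool.Agent.Lib.MP_17a322_ntTA.B0
import Pool.Agent.Lib.MP_17a322_ntTD.Defs

/-!
The dimension of the generic fibre, chains and joint bases: definitions.
-/

set_option autoImplicit false

universe u

namespace UTC

open MvPolynomial UTA UTD
open Pool.Agent.Lib.MP_17a322_nt.VA Pool.Agent.Lib.MP_17a322_nt.SL

/-- The ideal of the intersection of the `D_j`, `j ∈ J`, in the fibre with the ideal `I`. -/
noncomputable def cut {L : Type u} [Field L] {q m : ℕ} (I : Ideal (MvPolynomial (Fin q × Fin (m + 1)) L))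
    (J : Finset (Fin q)) : Ideal (MvPolynomial (Fin q × Fin (m + 1)) L) :=
  I ⊔ Ideal.span ((fun j => X (j, 0)) '' (J : Set (Fin q)))

/-- The generic fibre has dimension `n`, and its images in all the factors have dimension `n`: there are `n + 1`
forms of one multidegree without common zero on it, and `n + 1` coordinates of every block without algebraic
relation. -/
structure Dim {K : Type u} [Field K] {N q m κ : ℕ} (n : ℕ) (A : AV K N) (H : Fin κ → Fm K N q m) : Prop where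
  le : ∀ (L : Type u) [Field L] [IsAlgClosed L] [Algebra K L] (P : A.Pts L), Gen A P →
    ∃ d : ℕ, 0 < d ∧ ∃ f : Fin (n + 1) → MvPolynomial (Fin q × Fin (m + 1)) L,
      (∀ j, f j ∈ MH L m fun _ => d) ∧ ∀ y, InX H (A.x P) y →
        ∃ j, aeval (fun z : Fin q × Fin (m + 1) => y z.1 z.2) (f j) ≠ 0
  big : ∀ (L : Type u) [Field L] [IsAlgClosed L] [Algebra K L] (P : A.Pts L), Gen A P →
    ∀ i, ∃ t : Fin (n + 1) → Fin (m + 1), ∀ G : MvPolynomial (Fin (n + 1)) L,
      aeval (fun j => (X (i, t j) : MvPolynomial (Fin q × Fin (m + 1)) L)) G ∈ fib H (A.x P) → G = 0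

/-- The forms of multidegree `M` modulo the ideal `I`. -/
noncomputable abbrev Vm {k : Type u} [Field k] {q m : ℕ} (I : Ideal (MvPolynomial (Fin q × Fin (m + 1)) k))
    (M : Fin q → ℕ) : Submodule k (MvPolynomial (Fin q × Fin (m + 1)) k ⧸ I) :=
  (MH k m M).map (Ideal.Quotient.mkₐ k I).toLinearMap

/-- The product of the coordinates `y_(i, lam i)` modulo the ideal `I`. -/
noncomputable abbrev gc {k : Type u} [Field k] {q m : ℕ} (I : Ideal (MvPolynomial (Fin q × Fin (m + 1)) k))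
    (lam : Fin q → Fin (m + 1)) : MvPolynomial (Fin q × Fin (m + 1)) k ⧸ I :=
  Ideal.Quotient.mk I (∏ i, X (i, lam i))

/-- The class of `y_(i, 0)`. -/
noncomputable abbrev sc {k : Type u} [Field k] {q m : ℕ} (I : Ideal (MvPolynomial (Fin q × Fin (m + 1)) k))
    (i : Fin q) : MvPolynomial (Fin q × Fin (m + 1)) k ⧸ I :=
  Ideal.Quotient.mk I (X (i, 0))

/-- `s i` is a nonzerodivisor modulo the `s j`, `j ∈ J`, up to powers of `g`, for `J ⊆ Q`, `i ∈ Q`, `i ∉ J`. -/
def RegQ {q : ℕ} {S : Type*} [CommRing S] (g : S) (s : Fin q → S) (Q : Finset (Fin q)) : Prop :=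
  ∀ (J : Finset (Fin q)) (i : Fin q), J ⊆ Q → i ∈ Q → i ∉ J → ∀ f, s i * f ∈ Ideal.span (s '' (J : Set (Fin q))) →
    ∃ c : ℕ, g ^ c * f ∈ Ideal.span (s '' (J : Set (Fin q)))

/-- Chains of subspaces of the forms of multidegree `M` over `k`, one for every `i ∈ Q` and every choice `lam` of
one coordinate in every block, whose terms have order of vanishing at least `j` along `D_i` where these coordinates
are not zero, and lower bounds `W i` for the sums of their dimensions. -/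
structure ChainQ {k : Type u} [Field k] {q m κ : ℕ} (h : Fin κ → MvPolynomial (Fin q × Fin (m + 1)) k)
    (Q : Finset (Fin q)) (M W : Fin q → ℕ) where
  J : ℕ
  G : (Fin q → Fin (m + 1)) → Fin q → ℕ → Submodule k (Vm (Ik h) M)
  G_zero : ∀ lam, ∀ i, G lam i 0 = ⊤
  G_dvd : ∀ lam, ∀ i ∈ Q, ∀ j, ∀ f ∈ G lam i j, ∃ c : ℕ,
    sc (Ik h) i ^ j ∣ gc (Ik h) lam ^ c * (f : MvPolynomial (Fin q × Fin (m + 1)) k ⧸ Ik h)
  W_le : ∀ lam, ∀ i ∈ Q, W i ≤ ∑ j ∈ Finset.Icc 1 J, Module.finrank k (G lam i j)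

/-- The indices of the joint bases: a grid point `t` and a coordinate in every block. -/
abbrev Ind (q m B : ℕ) := (Fin q → Fin (B + 1)) × (Fin q → Fin (m + 1))

/-- Joint bases of the forms of multidegree `M` on the generic fibre. -/
structure BasC {K : Type u} [Field K] {N q m κ : ℕ} (A : AV K N) (H : Fin κ → Fm K N q m)
    (Q : Finset (Fin q)) (M W : Fin q → ℕ) (B r : ℕ) where
  /-- The exponents of a basis of monomials. -/
  mon : Fin r → (Fin q × Fin (m + 1)) →₀ ℕ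
  mon_deg : ∀ l i, ∑ t, mon l (i, t) = M i
  mon_li : ∀ (L : Type u) [Field L] [IsAlgClosed L] [Algebra K L] (P : A.Pts L), Gen A P →
    ∀ u : Fin r → L, ∑ c, u c • monomial (mon c) (1 : L) ∈ fib H (A.x P) → u = 0
  /-- The degree in `x`. -/
  D : ℕ
  /-- The coefficients of the bases. -/
  Λ : Ind q m B → Fin r → Fin r → MvPolynomial (Fin (N + 1)) K
  Λ_hom : ∀ b l c, (Λ b l c).IsHomogeneous D
  Λ_li : ∀ b, ∀ (L : Type u) [Field L] [Algebra K L] (P : A.Pts L), Gen A P →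
    LinearIndependent L fun l c => aeval (A.x P) (Λ b l c)
  /-- The weights of the elements of the bases. -/
  x : Ind q m B → Fin r → ℕ
  x_sum : ∀ b, ∑ i ∈ Q, (b.1 i : ℕ) * W i ≤ ∑ l, x b l
  E : Ind q m B → Fin r → ℕ
  Ex : Ind q m B → Fin r → Finset (Fin q → ℕ)
  Ex_w : ∀ b l, ∀ a ∈ Ex b l, x b l ≤ ∑ i ∈ Q, (b.1 i : ℕ) * a i
  Ex_le : ∀ b l, ∀ a ∈ Ex b l, ∀ i, a i ≤ M i + E b l
  G : Ind q m B → Fin r → (Fin q → ℕ) → Fm K N q m
  G_mh : ∀ b l, ∀ a ∈ Ex b l, Mh (G b l a) D fun i => M i + E b l - a i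
  /-- The denominator. -/
  R : MvPolynomial (Fin (N + 1)) K
  /-- The degree of the denominator. -/
  ρ : ℕ
  R_hom : R.IsHomogeneous ρ
  R_notMem : R ∉ A.I
  rel : ∀ (L : Type u) [Field L] [Algebra K L] (P : A.Pts L) (y : Fin q → Fin (m + 1) → L),
    (∀ j, val (H j) (A.x P) y = 0) → ∀ b l,
      aeval (A.x P) R * ((∏ i, y i (b.2 i)) ^ E b l *
        (∑ c, aeval (A.x P) (Λ b l c) * ∏ z, y z.1 z.2 ^ mon c z) -
          ∑ a ∈ Ex b l, (∏ i, y i 0 ^ a i) * val (G b l a) (A.x P) y) = 0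

end UTC
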