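import Mathlib

/-!
Leaf H4 (pure analysis): weights for which the orders of vanishing along all the `D_i` are equally large.
-/

set_option autoImplicit false

namespace UTA

open Real

/-- The function which is minimised. -/
private noncomputable def H4_G {q : ℕ} (n : ℕ) (h : (Fin q → ℕ) → ℕ) (η : ℝ) (N : Fin q → ℕ) : ℝ :=
  log (h N) - (n / q : ℝ) * (1 + η) * ∑ i, log (N i)

private theorem H4_min {q n : ℕ} (hq : 0 < q) (hn : 0 < n) (h : (Fin q → ℕ) → ℕ) (c C : ℝ)
    (hc : 0 < c) (lo : ∀ N : Fin q → ℕ, (∀ i, 1 ≤ N i) → ∀ l, c * (N l : ℝ) ^ n ≤ h N)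
    (up : ∀ t : ℕ, 1 ≤ t → (h fun _ => t : ℝ) ≤ C * (t : ℝ) ^ n) (η : ℝ) (hη : 0 < η)
    (hη1 : η * (q - 1) ≤ 1) (B : ℕ) (hB : 1 ≤ B) :
    ∃ N : Fin q → ℕ, (∀ i, B < N i) ∧ (∀ i, H4_G n h η N ≤ H4_G n h η (N - Pi.single i 1)) ∧
      ∀ i l, log (N l) - log (N i) ≤ (q / n : ℝ) * (log C - log c) := by
  classical
  have hqR : (0 : ℝ) < q := by exact_mod_cast hq
  have hnR : (0 : ℝ) < n := by exact_mod_cast hn
  have hC : 0 < C := by
    have h1 := lo (fun _ => 1) (fun _ => le_refl _) ⟨0, hq⟩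
    have h2 := up 1 (le_refl _)
    simp only [Nat.cast_one, one_pow, mul_one] at h1 h2
    linarith
  have hBR : (1 : ℝ) ≤ B := by exact_mod_cast hB
  -- the size of the box
  obtain ⟨T, hT⟩ : ∃ T : ℕ, B ≤ T ∧ log C - n * η * log T < log c - (n / q : ℝ) * (1 + η) * log B := by
    have h1 : Filter.Tendsto (fun T : ℕ => n * η * log (T : ℝ)) Filter.atTop Filter.atTop :=
      Filter.Tendsto.const_mul_atTop (by positivity)
        (Real.tendsto_log_atTop.comp tendsto_natCast_atTop_atTop)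
    obtain ⟨T, h2, h3⟩ := ((Filter.eventually_ge_atTop B).and
      (h1.eventually_gt_atTop (log C - (log c - (n / q : ℝ) * (1 + η) * log B)))).exists
    exact ⟨T, h2, by linarith⟩
  have hTR : (1 : ℝ) ≤ T := by exact_mod_cast hB.trans hT.1
  obtain ⟨box, hbox⟩ : ∃ box : Finset (Fin q → ℕ), ∀ N, N ∈ box ↔ ∀ i, B ≤ N i ∧ N i ≤ T :=
    ⟨Fintype.piFinset fun _ => Finset.Icc B T, fun N => by
      rw [Fintype.mem_piFinset]
      simp only [Finset.mem_Icc]⟩
  have hdiag : (fun _ => T : Fin q → ℕ) ∈ box := (hbox _).2 fun _ => ⟨hT.1, le_refl _⟩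
  obtain ⟨N, hN, hmin⟩ := box.exists_min_image (H4_G n h η) ⟨_, hdiag⟩
  have hN' := (hbox N).1 hN
  have hN1 : ∀ i, (1 : ℝ) ≤ N i := fun i => by exact_mod_cast hB.trans (hN' i).1
  have hNT : ∀ i, (N i : ℝ) ≤ T := fun i => by exact_mod_cast (hN' i).2
  have hlog0 : ∀ i, 0 ≤ log (N i) := fun i => log_nonneg (hN1 i)
  have hlogT : ∀ i, log (N i) ≤ log T := fun i => log_le_log (by linarith [hN1 i]) (hNT i)
  -- the value on the diagonal
  have hGT : H4_G n h η N ≤ log C - n * η * log T := by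
    refine (hmin _ hdiag).trans ?_
    unfold H4_G
    have h1 : log (h fun _ => T : ℝ) ≤ log C + n * log T := by
      have h2 := lo (fun _ => T) (fun _ => hB.trans hT.1) ⟨0, hq⟩
      have h3 : (0 : ℝ) < h fun _ => T := lt_of_lt_of_le (by positivity) h2
      have h4 := log_le_log h3 (up T (hB.trans hT.1))
      rw [log_mul hC.ne' (by positivity), log_pow] at h4
      exact h4
    have h5 : ∑ _i : Fin q, log (T : ℝ) = q * log T := by simp
    have h6 : (n / q : ℝ) * (1 + η) * (q * log T) = n * (1 + η) * log T := by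
      field_simp
    change log (h fun _ => T : ℝ) - (n / q : ℝ) * (1 + η) * ∑ _i : Fin q, log (T : ℝ) ≤ _
    rw [h5, h6]
    linarith
  -- the largest coordinate
  obtain ⟨l, -, hl⟩ := (Finset.univ : Finset (Fin q)).exists_max_image (fun i => N i)
    ⟨⟨0, hq⟩, Finset.mem_univ _⟩
  have hl' : ∀ i, log (N i) ≤ log (N l) := fun i =>
    log_le_log (by linarith [hN1 i]) (by exact_mod_cast hl i (Finset.mem_univ i))
  have hlow : log c + n * log (N l) ≤ log (h N) := by
    have h1 := lo N (fun i => hB.trans (hN' i).1) l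
    have h2 : 0 < (N l : ℝ) := by linarith [hN1 l]
    have h3 := log_le_log (by positivity) h1
    rwa [log_mul hc.ne' (by positivity), log_pow] at h3
  have hG : H4_G n h η N = log (h N) - (n / q : ℝ) * (1 + η) * ∑ i, log (N i) := rfl
  have hfac : 0 < (n / q : ℝ) * (1 + η) := by positivity
  have hface : ∀ i, B < N i := by
    intro i
    by_contra hcon
    have h1 : N i = B := le_antisymm (not_lt.1 hcon) (hN' i).1
    have h2 : ∑ j, log (N j : ℝ) ≤ (q - 1) * log (N l) + log B := by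
      rw [← Finset.add_sum_erase _ _ (Finset.mem_univ i), h1]
      have h3 : ∑ j ∈ Finset.univ.erase i, log (N j : ℝ) ≤
          ∑ _j ∈ Finset.univ.erase i, log (N l : ℝ) := Finset.sum_le_sum fun j _ => hl' j
      rw [Finset.sum_const, Finset.card_erase_of_mem (Finset.mem_univ i), Finset.card_univ,
        Fintype.card_fin, nsmul_eq_mul, Nat.cast_sub (by omega), Nat.cast_one] at h3
      linarith
    have h4 : (n / q : ℝ) * (1 + η) * ∑ j, log (N j : ℝ) ≤
        (n / q : ℝ) * (1 + η) * ((q - 1) * log (N l) + log B) :=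
      mul_le_mul_of_nonneg_left h2 hfac.le
    have h5 : (n / q : ℝ) * (1 + η) * ((q - 1) * log (N l)) ≤ n * log (N l) := by
      have h6 : (1 + η) * (q - 1) ≤ (q : ℝ) := by linarith
      have h7 : (n / q : ℝ) * (1 + η) * ((q - 1) * log (N l)) =
          (n * log (N l)) * (((1 + η) * (q - 1)) / q) := by ring
      rw [h7]
      have h8 : ((1 + η) * ((q : ℝ) - 1)) / q ≤ 1 := (div_le_one hqR).2 h6
      have h9 : 0 ≤ n * log (N l : ℝ) := mul_nonneg hnR.le (hlog0 l)
      calc (n * log (N l : ℝ)) * (((1 + η) * (q - 1)) / q) ≤ (n * log (N l : ℝ)) * 1 :=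
            mul_le_mul_of_nonneg_left h8 h9
        _ = n * log (N l) := mul_one _
    have h10 := hT.2
    rw [hG] at hGT
    nlinarith
  refine ⟨N, hface, fun i => hmin _ ((hbox _).2 fun j => ?_), fun i l' => ?_⟩
  · rw [Pi.sub_apply]
    rcases eq_or_ne j i with rfl | hj
    · rw [Pi.single_eq_same]
      have := hface j
      have := (hN' j).2
      omega
    · rw [Pi.single_eq_of_ne hj]
      have := hN' j
      omega
  · have h1 : ∑ j, log (N j : ℝ) ≤ q * log T := by
      have h3 : ∑ j, log (N j : ℝ) ≤ ∑ _j : Fin q, log (T : ℝ) :=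
        Finset.sum_le_sum fun j _ => hlogT j
      simpa using h3
    have h2 : n * log (N l : ℝ) - (n / q : ℝ) * ∑ j, log (N j : ℝ) ≤ log C - log c := by
      rw [hG] at hGT
      have h4 : (n / q : ℝ) * η * ∑ j, log (N j : ℝ) ≤ (n / q : ℝ) * η * (q * log T) :=
        mul_le_mul_of_nonneg_left h1 (by positivity)
      have h5 : (n / q : ℝ) * η * (q * log T) = n * η * log T := by
        field_simp
      have h6 : (n / q : ℝ) * (1 + η) * ∑ j, log (N j : ℝ) =
          (n / q : ℝ) * ∑ j, log (N j : ℝ) + (n / q : ℝ) * η * ∑ j, log (N j : ℝ) := by ring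
      rw [h6] at hGT
      linarith
    have h3 : ∑ j, (log (N l : ℝ) - log (N j)) ≤ (q / n : ℝ) * (log C - log c) := by
      rw [Finset.sum_sub_distrib, Finset.sum_const, Finset.card_univ, Fintype.card_fin, nsmul_eq_mul]
      have h4 : (q : ℝ) * log (N l) - ∑ j, log (N j : ℝ) =
          (q / n : ℝ) * (n * log (N l : ℝ) - (n / q : ℝ) * ∑ j, log (N j : ℝ)) := by
        field_simp
      rw [h4]
      exact mul_le_mul_of_nonneg_left h2 (by positivity)
    have h4 : log (N l : ℝ) - log (N i) ≤ ∑ j, (log (N l : ℝ) - log (N j)) :=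
      Finset.single_le_sum (f := fun j => log (N l : ℝ) - log (N j)) (fun j _ => sub_nonneg.2 (hl' j))
        (Finset.mem_univ i)
    linarith [hl' l']

/-- **The weights.** -/
theorem H4_weights {q n : ℕ} (hq : 0 < q) (hn : 0 < n) (h : (Fin q → ℕ) → ℕ) (c C : ℝ)
    (hc : 0 < c) (lo : ∀ N : Fin q → ℕ, (∀ i, 1 ≤ N i) → ∀ l, c * (N l : ℝ) ^ n ≤ h N)
    (up : ∀ t : ℕ, 1 ≤ t → (h fun _ => t : ℝ) ≤ C * (t : ℝ) ^ n) :
    ∃ w : Fin q → ℝ, (∀ i, 0 < w i) ∧ ∑ i, w i = 1 ∧ ∀ ε : ℝ, 0 < ε → ∀ B : ℕ,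
      ∃ N : Fin q → ℕ, (∀ i, B ≤ N i) ∧ (∀ i, |(N i : ℝ) / ∑ l, (N l : ℝ) - w i| ≤ ε) ∧
        ∀ i, (q : ℝ) * N i * ((h N : ℝ) - h (N - Pi.single i 1)) ≤ (1 + ε) * n * h N := by
  classical
  have hqR : (0 : ℝ) < q := by exact_mod_cast hq
  have hq1 : (1 : ℝ) ≤ q := by exact_mod_cast hq
  have hnR : (0 : ℝ) < n := by exact_mod_cast hn
  have hη0 : ∀ k : ℕ, (0 : ℝ) < 1 / (k + q) := fun k => by positivity
  have hη1 : ∀ k : ℕ, (1 / (k + q) : ℝ) * (q - 1) ≤ 1 := by
    intro k
    rw [div_mul_eq_mul_div, one_mul, div_le_one (by positivity)]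
    have : (0 : ℝ) ≤ k := Nat.cast_nonneg k
    linarith
  choose N hN1 hN2 hN3 using fun k : ℕ => H4_min hq hn h c C hc lo up (1 / (k + q)) (hη0 k) (hη1 k)
    (k + 1) (Nat.le_add_left _ _)
  obtain ⟨ρ, hρ⟩ : ∃ ρ : ℝ, ρ = exp ((q / n : ℝ) * (log C - log c)) := ⟨_, rfl⟩
  have hρ0 : 0 < ρ := by rw [hρ]; exact exp_pos _
  have hNpos : ∀ k i, (0 : ℝ) < N k i := fun k i => by
    have := hN1 k i
    exact_mod_cast (by omega : 0 < N k i)
  have hrat : ∀ k i l, (N k l : ℝ) ≤ ρ * N k i := by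
    intro k i l
    have h1 := hN3 k i l
    rw [← log_div (hNpos k l).ne' (hNpos k i).ne'] at h1
    have h2 := (log_le_iff_le_exp (div_pos (hNpos k l) (hNpos k i))).1 h1
    rw [← hρ, div_le_iff₀ (hNpos k i)] at h2
    exact h2
  have hsum : ∀ k, (0 : ℝ) < ∑ l, (N k l : ℝ) := fun k =>
    Finset.sum_pos (fun l _ => hNpos k l) ⟨⟨0, hq⟩, Finset.mem_univ _⟩
  obtain ⟨u, hu⟩ : ∃ u : ℕ → Fin q → ℝ, ∀ k i, u k i = (N k i : ℝ) / ∑ l, (N k l : ℝ) :=
    ⟨_, fun _ _ => rfl⟩
  have hu1 : ∀ k, ∑ i, u k i = 1 := by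
    intro k
    simp_rw [hu]
    rw [← Finset.sum_div, div_self (hsum k).ne']
  have hδ : 0 < 1 / (q * ρ) := by positivity
  have hu2 : ∀ k, u k ∈ Set.Icc (fun _ : Fin q => 1 / (q * ρ)) (fun _ => (1 : ℝ)) := by
    intro k
    refine ⟨fun i => ?_, fun i => ?_⟩
    · change 1 / (q * ρ) ≤ u k i
      rw [hu, div_le_div_iff₀ (by positivity) (hsum k), one_mul]
      have h1 : ∑ l, (N k l : ℝ) ≤ ∑ _l : Fin q, ρ * N k i := Finset.sum_le_sum fun l _ => hrat k i l
      rw [Finset.sum_const, Finset.card_univ, Fintype.card_fin, nsmul_eq_mul] at h1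
      linarith
    · change u k i ≤ 1
      rw [hu, div_le_one (hsum k)]
      exact Finset.single_le_sum (f := fun l => (N k l : ℝ)) (fun l _ => (hNpos k l).le)
        (Finset.mem_univ i)
  obtain ⟨w, hw, φ, hφ, hlim⟩ := isCompact_Icc.tendsto_subseq hu2
  have hlim' : ∀ i, Filter.Tendsto (fun k => u (φ k) i) Filter.atTop (nhds (w i)) := fun i =>
    (tendsto_pi_nhds.1 hlim) i
  refine ⟨w, fun i => lt_of_lt_of_le hδ (hw.1 i), ?_, fun ε hε B => ?_⟩
  · have h1 : Filter.Tendsto (fun k => ∑ i, u (φ k) i) Filter.atTop (nhds (∑ i, w i)) :=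
      tendsto_finsetSum _ fun i _ => hlim' i
    simp_rw [hu1] at h1
    exact (tendsto_nhds_unique h1 tendsto_const_nhds)
  · have e1 : ∀ᶠ k in Filter.atTop, ∀ i, |u (φ k) i - w i| ≤ ε := by
      rw [Filter.eventually_all]
      intro i
      have h1 := (Metric.tendsto_atTop.1 (hlim' i)) ε hε
      obtain ⟨K, hK⟩ := h1
      filter_upwards [Filter.eventually_ge_atTop K] with k hk
      have h2 := hK k hk
      rw [Real.dist_eq] at h2
      exact h2.le
    obtain ⟨K, hK⟩ := exists_nat_gt (3 / ε)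
    obtain ⟨k, hk1, hk2, hk3⟩ := (e1.and ((Filter.eventually_ge_atTop B).and
      (Filter.eventually_ge_atTop K))).exists
    have hφk : k ≤ φ k := hφ.id_le k
    refine ⟨N (φ k), fun i => ?_, fun i => ?_, fun i => ?_⟩
    · have := hN1 (φ k) i
      omega
    · rw [← hu]
      exact hk1 i
    · obtain ⟨M, hM⟩ : ∃ M : Fin q → ℕ, M = N (φ k) := ⟨_, rfl⟩
      obtain ⟨κ, hκ⟩ : ∃ κ : ℕ, κ = φ k := ⟨_, rfl⟩
      have g1 := hN1 (φ k) i
      have g2 := hN2 (φ k) i
      rw [← hM, ← hκ] at g1 g2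
      rw [← hM]
      have hall : ∀ j, κ + 1 < M j := fun j => by rw [hM, hκ]; exact hN1 (φ k) j
      have g3 : (M - Pi.single i 1 : Fin q → ℕ) i = M i - 1 := by
        rw [Pi.sub_apply, Pi.single_eq_same]
      have g4 : ∀ j, j ≠ i → (M - Pi.single i 1 : Fin q → ℕ) j = M j := fun j hj => by
        rw [Pi.sub_apply, Pi.single_eq_of_ne hj, Nat.sub_zero]
      have hx : (0 : ℝ) < h M := by
        have h1 := lo M (fun j => by have := hall j; omega) i
        have h2 : (0 : ℝ) < M i := by exact_mod_cast (by omega : 0 < M i)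
        exact lt_of_lt_of_le (by positivity) h1
      have hy : (0 : ℝ) < h (M - Pi.single i 1) := by
        have h1 := lo (M - Pi.single i 1) (fun j => by
          rcases eq_or_ne j i with rfl | hj
          · rw [g3]; omega
          · rw [g4 j hj]; have := hall j; omega) i
        rw [g3] at h1
        have h2 : (0 : ℝ) < (M i - 1 : ℕ) := by exact_mod_cast (by omega : 0 < M i - 1)
        exact lt_of_lt_of_le (by positivity) h1
      have g5 : log (h M) - log (h (M - Pi.single i 1)) ≤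
          (n / q : ℝ) * (1 + 1 / (κ + q)) * (log (M i) - log ((M i - 1 : ℕ) : ℝ)) := by
        unfold H4_G at g2
        have h1 : ∀ M' : Fin q → ℕ, M' i = M i - 1 → (∀ j, j ≠ i → M' j = M j) →
            ∑ j, log (M j : ℝ) - ∑ j, log (M' j : ℝ) = log (M i) - log ((M i - 1 : ℕ) : ℝ) := by
          intro M' k1 k2
          have h3 := Finset.add_sum_erase Finset.univ (fun j => log (M j : ℝ)) (Finset.mem_univ i)
          have h4 := Finset.add_sum_erase Finset.univ (fun j => log (M' j : ℝ)) (Finset.mem_univ i)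
          have h2 : ∑ j ∈ Finset.univ.erase i, log (M' j : ℝ) =
              ∑ j ∈ Finset.univ.erase i, log (M j : ℝ) :=
            Finset.sum_congr rfl fun j hj => by rw [k2 j (Finset.ne_of_mem_erase hj)]
          simp only [k1, h2] at h3 h4
          linarith
        have h5 := h1 _ g3 g4
        rw [← h5, mul_sub]
        linarith
      have g6 : (h M : ℝ) - h (M - Pi.single i 1) ≤
          h M * (log (h M) - log (h (M - Pi.single i 1))) := by
        have h1 := log_le_sub_one_of_pos (div_pos hy hx)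
        rw [log_div hy.ne' hx.ne'] at h1
        have h2 : (h M : ℝ) * ((h (M - Pi.single i 1) : ℝ) / h M) = h (M - Pi.single i 1) := by
          field_simp
        nlinarith
      have hMi : (1 : ℝ) < M i := by exact_mod_cast (by omega : 1 < M i)
      have g7 : log (M i : ℝ) - log ((M i - 1 : ℕ) : ℝ) ≤ 1 / ((M i : ℝ) - 1) := by
        rw [Nat.cast_sub (by omega), Nat.cast_one, ← log_div (by linarith) (by linarith)]
        have h1 := log_le_sub_one_of_pos (div_pos (by linarith : (0 : ℝ) < M i)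
          (by linarith : (0 : ℝ) < (M i : ℝ) - 1))
        have h2 : (M i : ℝ) / ((M i : ℝ) - 1) - 1 = 1 / ((M i : ℝ) - 1) := by
          field_simp [(by linarith : (M i : ℝ) - 1 ≠ 0)]
          ring
        rwa [h2] at h1
      have hκR : (0 : ℝ) < (κ : ℝ) + 1 := by positivity
      have g8 : (h M : ℝ) - h (M - Pi.single i 1) ≤
          h M * ((n / q : ℝ) * (1 + 1 / (κ + q)) * (1 / ((M i : ℝ) - 1))) := by
        refine g6.trans (mul_le_mul_of_nonneg_left (g5.trans ?_) hx.le)
        exact mul_le_mul_of_nonneg_left g7 (by positivity)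
      have g9 : (1 + 1 / ((κ : ℝ) + q)) * (M i * (1 / ((M i : ℝ) - 1))) ≤ 1 + ε := by
        have h1 : (M i : ℝ) * (1 / ((M i : ℝ) - 1)) ≤ 1 + 1 / ((κ : ℝ) + 1) := by
          have h2 : (M i : ℝ) * (1 / ((M i : ℝ) - 1)) = 1 + 1 / ((M i : ℝ) - 1) := by
            field_simp [(by linarith : (M i : ℝ) - 1 ≠ 0)]
            ring
          rw [h2]
          have h3 : (κ : ℝ) + 1 ≤ (M i : ℝ) - 1 := by
            have h4 : κ + 1 + 1 ≤ M i := g1
            have h5 : ((κ + 1 + 1 : ℕ) : ℝ) ≤ M i := by exact_mod_cast h4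
            push_cast at h5
            linarith
          have := one_div_le_one_div_of_le hκR h3
          linarith
        have h2 : 1 / ((κ : ℝ) + q) ≤ 1 / ((κ : ℝ) + 1) :=
          one_div_le_one_div_of_le hκR (by linarith)
        have h3 : 1 / ((κ : ℝ) + 1) ≤ ε / 3 := by
          rw [div_le_iff₀ hκR]
          have h4 : (K : ℝ) ≤ κ := by
            rw [hκ]
            exact_mod_cast hk3.trans hφk
          rw [div_lt_iff₀ hε] at hK
          nlinarith
        have h4 : 1 / ((κ : ℝ) + 1) ≤ 1 := by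
          rw [div_le_one hκR]
          have : (0 : ℝ) ≤ κ := Nat.cast_nonneg κ
          linarith
        have h5 : 0 ≤ 1 / ((κ : ℝ) + 1) := by positivity
        calc (1 + 1 / ((κ : ℝ) + q)) * (M i * (1 / ((M i : ℝ) - 1)))
            ≤ (1 + 1 / ((κ : ℝ) + 1)) * (1 + 1 / ((κ : ℝ) + 1)) := by
              refine mul_le_mul (by linarith) h1 ?_ (by positivity)
              refine mul_nonneg (by positivity) ?_
              rw [one_div_nonneg]
              linarith
          _ ≤ 1 + ε := by nlinarith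
      calc (q : ℝ) * M i * ((h M : ℝ) - h (M - Pi.single i 1))
          ≤ (q : ℝ) * M i * (h M * ((n / q : ℝ) * (1 + 1 / (κ + q)) * (1 / ((M i : ℝ) - 1)))) :=
            mul_le_mul_of_nonneg_left g8 (by positivity)
        _ = ((1 + 1 / ((κ : ℝ) + q)) * (M i * (1 / ((M i : ℝ) - 1)))) * (n * h M) := by
            field_simp
        _ ≤ (1 + ε) * (n * h M) := mul_le_mul_of_nonneg_right g9 (by positivity)
        _ = (1 + ε) * n * h M := by ring

end UTA
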