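import Pool.Agent.Lib.MP_17a322_ntTA.FL
import Pool.Agent.Lib.MP_17a322_ntTB.H1
import Pool.Agent.Lib.MP_17a322_ntTC.CDefs

/-!
Leaf K3: the chains of T3.

PROOF. `V = Vm (Ik h) M`, `V_i = Vm (Ik h) (M - e_i)`, `u = X (i, lam i)`, `s = X (i, 0)`: `G lam i j = FLF V V_i s u j`. `FLF_dim` (the ring is a domain,
`s ≠ 0` in it) and induction on `j`: `r ≤ finrank (G lam i j) + j * δ i`. `FLF_le`: `u ^ j f = s ^ j y`, so `s ^ j ∣ gc ^ j f`.
`W i` = the minimum over the finitely many `lam` of `∑ j ∈ Icc 1 J, finrank (G lam i j)`.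
-/

set_option autoImplicit false

universe u

namespace UTC

open MvPolynomial UTA UTD

/-- A coordinate of the block `i` has the multidegree `e_i`. -/
private theorem K3_X {k : Type u} [Field k] {q m : ℕ} (i : Fin q) (l : Fin (m + 1)) :
    (X (i, l) : MvPolynomial (Fin q × Fin (m + 1)) k) ∈ MH k m (Pi.single i 1) := by
  classical
  show ∀ μ ∈ (X (i, l) : MvPolynomial (Fin q × Fin (m + 1)) k).support, ∀ j, ∑ t, μ (j, t) = (Pi.single i 1 : Fin q → ℕ) j
  intro μ hμ j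
  rw [support_X, Finset.mem_singleton] at hμ
  subst hμ
  by_cases hj : j = i
  · subst hj
    rw [Pi.single_eq_same, Finset.sum_eq_single l]
    · rw [Finsupp.single_eq_same]
    · intro b _ hb
      rw [Finsupp.single_apply, if_neg]
      intro h
      exact hb (Prod.ext_iff.1 h).2.symm
    · intro h
      exact absurd (Finset.mem_univ _) h
  · rw [Pi.single_eq_of_ne hj]
    refine Finset.sum_eq_zero fun b _ => ?_
    rw [Finsupp.single_apply, if_neg]
    intro h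
    exact hj (Prod.ext_iff.1 h).1.symm

/-- Multiplication by a coordinate of the block `i`. -/
private theorem K3_mul {k : Type u} [Field k] {q m : ℕ} (I : Ideal (MvPolynomial (Fin q × Fin (m + 1)) k))
    {M : Fin q → ℕ} (i : Fin q) (hM : 1 ≤ M i) (l : Fin (m + 1)) :
    ∀ x ∈ Vm I (M - Pi.single i 1), Ideal.Quotient.mk I (X (i, l)) * x ∈ Vm I M := by
  rintro x hx
  obtain ⟨f, hf, rfl⟩ := Submodule.mem_map.1 hx
  refine Submodule.mem_map.2 ⟨X (i, l) * f, ?_, ?_⟩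
  · have h := B3_mul (K3_X (k := k) i l) hf
    have h2 : Pi.single i 1 + (M - Pi.single i 1) = M := by
      funext j
      by_cases hj : j = i
      · subst hj
        show (Pi.single j 1 : Fin q → ℕ) j + (M j - (Pi.single j 1 : Fin q → ℕ) j) = M j
        rw [Pi.single_eq_same]
        omega
      · show (Pi.single i 1 : Fin q → ℕ) j + (M j - (Pi.single i 1 : Fin q → ℕ) j) = M j
        rw [Pi.single_eq_of_ne hj]
        omega
    rwa [h2] at h
  · exact map_mul (Ideal.Quotient.mk I) _ _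

theorem K3_chain {k : Type u} [Field k] {q m κ : ℕ} {h : Fin κ → MvPolynomial (Fin q × Fin (m + 1)) k}
    (hp : (Ik h).IsPrime) (h0 : ∀ i, X (i, 0) ∉ Ik h) (M δ : Fin q → ℕ) (J : ℕ) (hM : ∀ i, 1 ≤ M i)
    (hδ : ∀ i, hf (Ik h) M ≤ hf (Ik h) (M - Pi.single i 1) + δ i) :
    ∃ W : Fin q → ℕ, Nonempty (ChainQ h Finset.univ M W) ∧
      ∀ i, ∃ f : ℕ → ℕ, (∀ j, hf (Ik h) M ≤ f j + j * δ i) ∧ W i = ∑ j ∈ Finset.Icc 1 J, f j := by
  classical
  have hdom : IsDomain (MvPolynomial (Fin q × Fin (m + 1)) k ⧸ Ik h) := Ideal.Quotient.isDomain (Ik h)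
  have hfd : ∀ N : Fin q → ℕ, FiniteDimensional k (Vm (Ik h) N) := by
    intro N
    have := B3_fd (k := k) (q := q) (m := m) N
    exact inferInstance
  have hs : ∀ i, sc (Ik h) i ≠ 0 := fun i h1 => h0 i (Ideal.Quotient.eq_zero_iff_mem.1 h1)
  let G : (Fin q → Fin (m + 1)) → Fin q → ℕ → Submodule k (Vm (Ik h) M) := fun lam i j =>
    FLF (Vm (Ik h) M) (Vm (Ik h) (M - Pi.single i 1)) (sc (Ik h) i) (Ideal.Quotient.mk (Ik h) (X (i, lam i))) j
  have hdim : ∀ lam i j, hf (Ik h) M ≤ Module.finrank k (G lam i j) + j * δ i := by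
    intro lam i j
    induction j with
    | zero =>
      show Module.finrank k (Vm (Ik h) M) ≤ Module.finrank k (⊤ : Submodule k (Vm (Ik h) M)) + 0 * δ i
      rw [finrank_top]
      omega
    | succ j ih =>
      have h5 := FLF_dim (Vm (Ik h) M) (Vm (Ik h) (M - Pi.single i 1)) (sc (Ik h) i)
        (Ideal.Quotient.mk (Ik h) (X (i, lam i))) (hs i) (K3_mul (Ik h) i (hM i) 0) (K3_mul (Ik h) i (hM i) (lam i))
        (d := δ i) (hδ i) j
      have h6 : (j + 1) * δ i = j * δ i + δ i := by ring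
      have h7 : Module.finrank k (G lam i j) ≤ Module.finrank k (G lam i (j + 1)) + δ i := h5
      omega
  have hmin : ∀ i, ∃ lam0 : Fin q → Fin (m + 1), ∀ lam, ∑ j ∈ Finset.Icc 1 J, Module.finrank k (G lam0 i j) ≤
      ∑ j ∈ Finset.Icc 1 J, Module.finrank k (G lam i j) := fun i =>
    Finite.exists_min fun lam => ∑ j ∈ Finset.Icc 1 J, Module.finrank k (G lam i j)
  choose lam0 hlam0 using hmin
  refine ⟨fun i => ∑ j ∈ Finset.Icc 1 J, Module.finrank k (G (lam0 i) i j), ⟨?_⟩, fun i =>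
    ⟨fun j => Module.finrank k (G (lam0 i) i j), fun j => hdim (lam0 i) i j, rfl⟩⟩
  refine
    { J := J
      G := G
      G_zero := fun lam i => rfl
      G_dvd := ?_
      W_le := fun lam i _ => hlam0 i lam }
  intro lam i _ j f hf
  obtain ⟨y, -, hy⟩ := FLF_le (Vm (Ik h) M) (Vm (Ik h) (M - Pi.single i 1)) (sc (Ik h) i)
    (Ideal.Quotient.mk (Ik h) (X (i, lam i))) (K3_mul (Ik h) i (hM i) (lam i)) j hf
  refine ⟨j, (Ideal.Quotient.mk (Ik h) (∏ a ∈ Finset.univ.erase i, X (a, lam a))) ^ j * y, ?_⟩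
  have h1 : gc (Ik h) lam = Ideal.Quotient.mk (Ik h) (X (i, lam i)) *
      Ideal.Quotient.mk (Ik h) (∏ a ∈ Finset.univ.erase i, X (a, lam a)) := by
    rw [← map_mul, Finset.mul_prod_erase Finset.univ (fun a => (X (a, lam a) : MvPolynomial (Fin q × Fin (m + 1)) k)) (Finset.mem_univ i)]
  rw [h1, mul_pow]
  calc (Ideal.Quotient.mk (Ik h) (X (i, lam i))) ^ j * (Ideal.Quotient.mk (Ik h) (∏ a ∈ Finset.univ.erase i, X (a, lam a))) ^ j * (f : MvPolynomial (Fin q × Fin (m + 1)) k ⧸ Ik h)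
      = (Ideal.Quotient.mk (Ik h) (∏ a ∈ Finset.univ.erase i, X (a, lam a))) ^ j * ((Ideal.Quotient.mk (Ik h) (X (i, lam i))) ^ j * (f : MvPolynomial (Fin q × Fin (m + 1)) k ⧸ Ik h)) := by ring
    _ = (Ideal.Quotient.mk (Ik h) (∏ a ∈ Finset.univ.erase i, X (a, lam a))) ^ j * (sc (Ik h) i ^ j * y) := by rw [hy]
    _ = sc (Ik h) i ^ j * ((Ideal.Quotient.mk (Ik h) (∏ a ∈ Finset.univ.erase i, X (a, lam a))) ^ j * y) := by ring

end UTC
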