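import Pool.Agent.Lib.MP_17a322_ntTC.J5
import Pool.Agent.Lib.MP_17a322_ntTC.CDefs

/-!
Leaf K5: regularity over `k` (`J5_mem`; the proof of `J5_reg` with `J ⊆ Q`).

PROOF. `sc i * f ∈ span (sc '' J)`: lift `f`; `X (i, 0) * f ∈ cut (Ik h) J`; over `Ω` (`J5_mem`, `cut ≤ sat cut`) `hreg` gives `e` for `lam`; back to `k` by `J5_mem`.
-/

set_option autoImplicit false

universe u

namespace UTC

open MvPolynomial UTA UTD

theorem K5_reg {k : Type u} [Field k] {q m κ : ℕ} (h : Fin κ → MvPolynomial (Fin q × Fin (m + 1)) k)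
    (Ω : Type u) [Field Ω] [Algebra k Ω] (Q : Finset (Fin q))
    (hreg : ∀ J : Finset (Fin q), J ⊆ Q → ∀ i ∈ Q, i ∉ J → ∀ f : MvPolynomial (Fin q × Fin (m + 1)) Ω,
      X (i, 0) * f ∈ sat (cut (IΩ h Ω) J) → f ∈ sat (cut (IΩ h Ω) J))
    (lam : Fin q → Fin (m + 1)) : RegQ (gc (Ik h) lam) (sc (Ik h)) Q := by
  intro J i hJ hi hiJ f hf
  obtain ⟨f, rfl⟩ := Ideal.Quotient.mk_surjective f
  have e1 : Ideal.span (sc (Ik h) '' (J : Set (Fin q))) =
      Ideal.map (Ideal.Quotient.mk (Ik h))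
        (Ideal.span ((fun j => (X (j, 0) : MvPolynomial (Fin q × Fin (m + 1)) k)) '' (J : Set (Fin q)))) := by
    rw [Ideal.map_span, Set.image_image]
  rw [e1, ← map_mul, Ideal.mem_quotient_iff_mem_sup, sup_comm] at hf
  have h1 := (J5_mem (Ω := Ω) h J _).2 hf
  rw [map_mul, map_X] at h1
  obtain ⟨e, he⟩ := hreg J hJ i hi hiJ _ (fun l => ⟨0, by rw [pow_zero, one_mul]; exact h1⟩) lam
  refine ⟨e, ?_⟩
  rw [e1, ← map_pow, ← map_mul, Ideal.mem_quotient_iff_mem_sup, sup_comm]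
  refine (J5_mem (Ω := Ω) h J _).1 ?_
  rw [map_mul, map_pow, map_prod]
  simp only [map_X]
  exact he

end UTC
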