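import Pool.Agent.Lib.MP_17a322_ntTC.J4
import Pool.Agent.Lib.MP_17a322_ntTC.CDefs

/-!
Leaf K4: `J4_basis` for a subset `Q` of the indices.

PROOF. Put `s' i = s i` for `i ∈ Q` and `s' i = 1` otherwise: `RegQ g s Q` gives `Reg g s'` (if `i ∉ Q` or `J` is not contained in `Q` the
statement is trivial), and `wid s' t Q x = wid s t' univ x` for `t' = t` on `Q`, `0` off `Q`, up to `≤` (exponents supported on `Q`).
-/

set_option autoImplicit false

namespace UTC

open UTA

private theorem K4_reg {q : ℕ} {S : Type*} [CommRing S] {g : S} {s : Fin q → S} {Q : Finset (Fin q)}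
    (hReg : RegQ g s Q) : Reg g fun i => if i ∈ Q then s i else 1 := by
  classical
  intro J i hi f hf
  by_cases hJ : J ⊆ Q
  · by_cases hiQ : i ∈ Q
    · have e1 : (fun i => if i ∈ Q then s i else 1) '' (J : Set (Fin q)) = s '' (J : Set (Fin q)) := by
        refine Set.image_congr fun j hj => ?_
        rw [if_pos (hJ hj)]
      simp only [e1, if_pos hiQ] at hf ⊢
      exact hReg J i hJ hiQ hi f hf
    · refine ⟨0, ?_⟩
      simp only [if_neg hiQ, one_mul] at hf
      rw [pow_zero, one_mul]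
      exact hf
  · obtain ⟨j, hj, hjQ⟩ := Finset.not_subset.1 hJ
    have h1 : (1 : S) ∈ Ideal.span ((fun i => if i ∈ Q then s i else 1) '' (J : Set (Fin q))) :=
      Ideal.subset_span ⟨j, hj, if_neg hjQ⟩
    rw [(Ideal.eq_top_iff_one _).2 h1]
    exact ⟨0, trivial⟩

theorem K4_basis {q : ℕ} {k S : Type*} [Field k] [CommRing S] [Algebra k S] {g : S} {s : Fin q → S}
    {Q : Finset (Fin q)} (hReg : RegQ g s Q) (V : Submodule k S) [FiniteDimensional k V]
    (G : Fin q → ℕ → Submodule k V) (h0 : ∀ i, G i 0 = ⊤)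
    (hs : ∀ i ∈ Q, ∀ j, ∀ f ∈ G i j, ∃ c : ℕ, s i ^ j ∣ g ^ c * (f : S)) (J : ℕ) (t : Fin q → ℕ) :
    ∃ (b : Module.Basis (Fin (Module.finrank k V)) k V) (x : Fin (Module.finrank k V) → ℕ),
      (∀ l, ∃ c : ℕ, g ^ c * (b l : S) ∈ wid s (fun i => if i ∈ Q then t i else 0) Finset.univ (x l)) ∧
      ∑ i ∈ Q, t i * ∑ j ∈ Finset.Icc 1 J, Module.finrank k (G i j) ≤ ∑ l, x l := by
  classical
  obtain ⟨b, x, h1, h2⟩ := J4_basis (K4_reg hReg) V G h0 (fun i j f hf => by
    by_cases hi : i ∈ Q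
    · simp only [if_pos hi]
      exact hs i hi j f hf
    · simp only [if_neg hi, one_pow]
      exact ⟨0, one_dvd _⟩) J t Q
  refine ⟨b, x, fun l => ?_, h2⟩
  obtain ⟨c, hc⟩ := h1 l
  refine ⟨c, ?_⟩
  have h3 : wid (fun i => if i ∈ Q then s i else 1) t Q (x l) ≤
      wid s (fun i => if i ∈ Q then t i else 0) Finset.univ (x l) := by
    refine Ideal.span_mono ?_
    rintro _ ⟨a, ha, hx, rfl⟩
    refine ⟨a, fun i hi => absurd (Finset.mem_univ i) hi, hx.trans (Finset.sum_le_sum fun i _ => ?_),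
      Finset.prod_congr rfl fun i _ => ?_⟩
    · by_cases hi : i ∈ Q
      · simp only [if_pos hi, le_refl]
      · rw [ha i hi, mul_zero, mul_zero]
    · by_cases hi : i ∈ Q
      · simp only [if_pos hi]
      · rw [ha i hi, pow_zero, pow_zero]
  exact h3 hc

end UTC
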