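import Pool.Agent.Lib.MP_17a322_ntTC.J6
import Pool.Agent.Lib.MP_17a322_ntTC.K4
import Pool.Agent.Lib.MP_17a322_ntTB.H3

/-!
Leaf K6: joint bases over `k`, as polynomials.

PROOF. `UTB.H3_mon` gives `mon`; the classes of the monomials are a basis of `V = Vm (Ik h) M` (independent, and they span). For `t`, `lam`:
`K4_basis` for `V`, the chains `C.G lam`, gives a basis `b` of `V` and `x`; `β l c` = the coordinates of `b l` in the monomials, so
`b l = mk (∑ c, C (β l c) * monomial (mon c) 1)`; independent. For `l`: `c` with `gc ^ c * b l ∈ wid sc t' univ (x l)`: `J6_hom` for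
`F = (∏ X (i, lam i)) ^ c * ∑ c, C (β l c) * monomial (mon c) 1 ∈ MH (M + c (1, .., 1))`; `x ≤ ∑ t' i * a i = ∑ i ∈ Q, t i * a i`.
-/

set_option autoImplicit false

universe u

namespace UTC

open MvPolynomial UTA UTD

private theorem K6_mon {R : Type*} [CommSemiring R] {q m : ℕ} (lam : Fin q → Fin (m + 1)) (e : ℕ) :
    (monomial (∑ i, Finsupp.single (i, lam i) e) (1 : R) : MvPolynomial (Fin q × Fin (m + 1)) R) =
      (∏ i, X (i, lam i)) ^ e := by
  rw [monomial_sum_one, ← Finset.prod_pow]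
  exact Finset.prod_congr rfl fun i _ => (X_pow_eq_monomial).symm

private theorem K6_deg {q m : ℕ} (lam : Fin q → Fin (m + 1)) (e : ℕ) (i : Fin q) :
    ∑ l, (∑ j, Finsupp.single (j, lam j) e : (Fin q × Fin (m + 1)) →₀ ℕ) (i, l) = e := by
  classical
  have h1 : ∀ l, (∑ j, Finsupp.single (j, lam j) e : (Fin q × Fin (m + 1)) →₀ ℕ) (i, l) =
      if l = lam i then e else 0 := by
    intro l
    rw [Finsupp.finsetSum_apply, Finset.sum_eq_single i]
    · rw [Finsupp.single_apply]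
      by_cases h : l = lam i
      · rw [if_pos h, if_pos (by rw [h])]
      · rw [if_neg h, if_neg fun h' => h (Prod.ext_iff.1 h').2.symm]
    · intro j _ hj
      rw [Finsupp.single_apply, if_neg fun h' => hj (Prod.ext_iff.1 h').1]
    · exact fun h' => absurd (Finset.mem_univ i) h'
  rw [Finset.sum_congr rfl fun l _ => h1 l, Finset.sum_ite_eq' Finset.univ (lam i), if_pos (Finset.mem_univ _)]

private theorem K6_mem {k : Type u} [Field k] {q m : ℕ} {M : Fin q → ℕ} {μ : (Fin q × Fin (m + 1)) →₀ ℕ}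
    (hμ : ∀ i, ∑ l, μ (i, l) = M i) (c : k) : monomial μ c ∈ MH k m M := by
  intro ν hν i
  have h1 := support_monomial_subset hν
  rw [Finset.mem_singleton] at h1
  rw [h1]
  exact hμ i

theorem K6_main {k : Type u} [Field k] {q m κ : ℕ} {h : Fin κ → MvPolynomial (Fin q × Fin (m + 1)) k}
    (hh : ∀ j, ∃ d, h j ∈ MH k m d) {Q : Finset (Fin q)}
    (hreg : ∀ lam : Fin q → Fin (m + 1), RegQ (gc (Ik h) lam) (sc (Ik h)) Q)
    {M W : Fin q → ℕ} (C : ChainQ h Q M W) :
    ∃ mon : Fin (hf (Ik h) M) → (Fin q × Fin (m + 1)) →₀ ℕ,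
      (∀ l i, ∑ t, mon l (i, t) = M i) ∧
      (∀ u : Fin (hf (Ik h) M) → k, ∑ c, u c • monomial (mon c) (1 : k) ∈ Ik h → u = 0) ∧
      ∀ (t : Fin q → ℕ) (lam : Fin q → Fin (m + 1)),
        ∃ (β : Fin (hf (Ik h) M) → Fin (hf (Ik h) M) → k) (x : Fin (hf (Ik h) M) → ℕ), LinearIndependent k β ∧
          ∑ i ∈ Q, t i * W i ≤ ∑ l, x l ∧
          ∀ l, ∃ (E : ℕ) (Ex : Finset (Fin q → ℕ)) (g : (Fin q → ℕ) → MvPolynomial (Fin q × Fin (m + 1)) k),
            (∀ a ∈ Ex, x l ≤ ∑ i ∈ Q, t i * a i) ∧ (∀ a ∈ Ex, ∀ i, a i ≤ M i + E) ∧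
            (∀ a ∈ Ex, g a ∈ MH k m fun i => M i + E - a i) ∧
            (∏ i, X (i, lam i)) ^ E * (∑ c, MvPolynomial.C (β l c) * monomial (mon c) 1) -
              ∑ a ∈ Ex, (∏ i, X (i, 0) ^ a i) * g a ∈ Ik h := by
  classical
  obtain ⟨mon, hdeg, hli, hsp⟩ := UTB.H3_mon (Ik h) M
  refine ⟨mon, hdeg, hli, fun t lam => ?_⟩
  have hfd : FiniteDimensional k (MH k m M) := B3_fd M
  have hfdV : FiniteDimensional k (Vm (Ik h) M) := inferInstance
  obtain ⟨b, x, hb, hx⟩ : ∃ (b : Module.Basis (Fin (hf (Ik h) M)) k (Vm (Ik h) M)) (x : Fin (hf (Ik h) M) → ℕ),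
      (∀ l, ∃ c : ℕ, gc (Ik h) lam ^ c * ((b l : Vm (Ik h) M) : MvPolynomial (Fin q × Fin (m + 1)) k ⧸ Ik h) ∈
        wid (sc (Ik h)) (fun i => if i ∈ Q then t i else 0) Finset.univ (x l)) ∧
      ∑ i ∈ Q, t i * ∑ j ∈ Finset.Icc 1 C.J, Module.finrank k (C.G lam i j) ≤ ∑ l, x l :=
    K4_basis (hreg lam) (Vm (Ik h) M) (C.G lam) (C.G_zero lam)
      (fun i hi j f hf => C.G_dvd lam i hi j f hf) C.J t
  -- the coordinates of the basis
  have h1 : ∀ l : Fin (hf (Ik h) M), ∃ u : Fin (hf (Ik h) M) → k,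
      ((b l : Vm (Ik h) M) : MvPolynomial (Fin q × Fin (m + 1)) k ⧸ Ik h) =
        Ideal.Quotient.mk (Ik h) (∑ c, MvPolynomial.C (u c) * monomial (mon c) 1) := by
    intro l
    obtain ⟨f, hf, hfb⟩ := (b l).2
    obtain ⟨u, hu⟩ := hsp f hf
    refine ⟨u, ?_⟩
    rw [← hfb]
    show Ideal.Quotient.mk (Ik h) f = _
    refine Ideal.Quotient.eq.2 ?_
    simp only [MvPolynomial.C_mul']
    exact hu
  choose β hβ using h1
  refine ⟨β, x, ?_, ?_, fun l => ?_⟩
  · rw [Fintype.linearIndependent_iff]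
    intro g hg
    have h2 := (Fintype.linearIndependent_iff.1 b.linearIndependent) g
    refine h2 (Subtype.ext ?_)
    rw [Submodule.coe_sum]
    have h3 : ∀ l, ((g l • b l : Vm (Ik h) M) : MvPolynomial (Fin q × Fin (m + 1)) k ⧸ Ik h) =
        Ideal.Quotient.mk (Ik h) (∑ c, MvPolynomial.C (g l * β l c) * monomial (mon c) 1) := by
      intro l
      rw [Submodule.coe_smul, hβ l, ← Ideal.Quotient.mkₐ_eq_mk k, ← map_smul, Finset.smul_sum]
      congr 1
      refine Finset.sum_congr rfl fun c _ => ?_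
      rw [MvPolynomial.smul_eq_C_mul, ← mul_assoc, ← map_mul]
    rw [Finset.sum_congr rfl fun l _ => h3 l, ← map_sum, Finset.sum_comm]
    have h4 : ∀ c, ∑ l, (MvPolynomial.C (g l * β l c) * monomial (mon c) 1 :
        MvPolynomial (Fin q × Fin (m + 1)) k) = 0 := by
      intro c
      rw [← Finset.sum_mul, ← map_sum]
      have h5 := congrFun hg c
      rw [Finset.sum_apply] at h5
      simp only [Pi.smul_apply, smul_eq_mul, Pi.zero_apply] at h5
      rw [h5, map_zero, zero_mul]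
    rw [Finset.sum_congr rfl fun c _ => h4 c, Finset.sum_const_zero, map_zero]
    rfl
  · refine (Finset.sum_le_sum fun i hi => ?_).trans hx
    exact Nat.mul_le_mul_left _ (C.W_le lam i hi)
  · obtain ⟨E, hE⟩ := hb l
    have hF : (∏ i, X (i, lam i)) ^ E * (∑ c, MvPolynomial.C (β l c) * monomial (mon c) 1) ∈
        MH k m ((fun _ => E) + M) := by
      refine B3_mul ?_ (Submodule.sum_mem _ fun c _ => ?_)
      · rw [← K6_mon]
        exact K6_mem (K6_deg lam E) 1
      · rw [C_mul_monomial, mul_one]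
        exact K6_mem (hdeg c) _
    have hw : Ideal.Quotient.mk (Ik h)
        ((∏ i, X (i, lam i)) ^ E * (∑ c, MvPolynomial.C (β l c) * monomial (mon c) 1)) ∈
        wid (fun i => Ideal.Quotient.mk (Ik h) (X (i, 0))) (fun i => if i ∈ Q then t i else 0)
          Finset.univ (x l) := by
      rw [map_mul, map_pow, ← hβ l]
      exact hE
    obtain ⟨A, G, hA, hG⟩ := J6_hom hh _ hF hw
    refine ⟨E, A, G, fun a ha => ?_, fun a ha i => ?_, fun a ha => ?_, hG⟩
    · refine (hA a ha).2.1.trans (le_of_eq ?_)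
      rw [← Finset.sum_filter_add_sum_filter_not Finset.univ (fun i => i ∈ Q)]
      have e1 : ∑ i ∈ Finset.univ.filter (fun i => i ∈ Q), (if i ∈ Q then t i else 0) * a i = ∑ i ∈ Q, t i * a i := by
        rw [Finset.filter_mem_eq_inter, Finset.univ_inter]
        exact Finset.sum_congr rfl fun i hi => by rw [if_pos hi]
      have e2 : ∑ i ∈ Finset.univ.filter (fun i => i ∉ Q), (if i ∈ Q then t i else 0) * a i = 0 :=
        Finset.sum_eq_zero fun i hi => by rw [if_neg (Finset.mem_filter.1 hi).2, zero_mul]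
      rw [e1, e2, add_zero]
    · have h2 : a i ≤ E + M i := (hA a ha).1 i
      omega
    · have h2 := (hA a ha).2.2
      have h3 : ((fun _ => E) + M : Fin q → ℕ) - a = fun i => M i + E - a i := by
        funext i
        rw [Pi.sub_apply, Pi.add_apply, add_comm]
      rwa [h3] at h2

end UTC
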