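import Pool.Agent.Lib.MP_17a322_ntTA.D2
import Pool.Agent.Lib.MP_17a322_ntTC.K5
import Pool.Agent.Lib.MP_17a322_ntTC.K6

/-!
Transfer of the joint bases to the ring of forms in `x`.
-/

set_option autoImplicit false

universe u

namespace UTC

open MvPolynomial UTA UTD
open Pool.Agent.Lib.MP_17a322_nt.VA Pool.Agent.Lib.MP_17a322_nt.SL

private theorem K6t_mul {K : Type u} [Field K] {N q m : ℕ} {F G : Fm K N q m} {a b : ℕ} {d d' : Fin q → ℕ}
    (hF : Mh F a d) (hG : Mh G b d') : Mh (F * G) (a + b) (d + d') := by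
  classical
  refine ⟨fun μ => ?_, fun μ hμ i => ?_⟩
  · rw [coeff_mul]
    exact IsHomogeneous.sum _ _ _ fun x _ => (hF.1 x.1).mul (hG.1 x.2)
  · obtain ⟨y, hy, z, hz, rfl⟩ := Finset.mem_add.1 (support_mul F G hμ)
    simp only [Finsupp.add_apply, Finset.sum_add_distrib, hF.2 y hy i, hG.2 z hz i, Pi.add_apply]

private theorem K6t_mon {K : Type u} [Field K] {N q m : ℕ} (μ : (Fin q × Fin (m + 1)) →₀ ℕ)
    {c : MvPolynomial (Fin (N + 1)) K} {a : ℕ} (hc : c.IsHomogeneous a) {d : Fin q → ℕ}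
    (hμ : ∀ i, ∑ l, μ (i, l) = d i) : Mh (monomial μ c : Fm K N q m) a d := by
  classical
  refine ⟨fun ν => ?_, fun ν hν i => ?_⟩
  · rw [coeff_monomial]
    split_ifs
    · exact hc
    · exact isHomogeneous_zero _ _ _
  · have h : ν = μ := by
      by_contra hne
      rw [mem_support_iff, coeff_monomial, if_neg (Ne.symm hne)] at hν
      exact hν rfl
    rw [h]
    exact hμ i

private theorem K6t_C {K : Type u} [Field K] {N q m : ℕ} {c : MvPolynomial (Fin (N + 1)) K} {a : ℕ}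
    (hc : c.IsHomogeneous a) : Mh (C c : Fm K N q m) a 0 := by
  refine K6t_mon 0 hc fun i => ?_
  simp

private theorem K6t_X {K : Type u} [Field K] {N q m : ℕ} (i : Fin q) (l : Fin (m + 1)) :
    Mh (X (i, l) : Fm K N q m) 0 (Pi.single i 1) := by
  classical
  refine K6t_mon (Finsupp.single (i, l) 1) (isHomogeneous_one _ _) fun i' => ?_
  by_cases h : i' = i
  · subst h
    rw [Pi.single_eq_same, Finset.sum_eq_single l]
    · rw [Finsupp.single_eq_same]
    · intro b _ hb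
      rw [Finsupp.single_apply, if_neg]
      intro h
      exact hb (Prod.ext_iff.1 h).2.symm
    · intro h
      exact absurd (Finset.mem_univ _) h
  · rw [Pi.single_eq_of_ne h]
    refine Finset.sum_eq_zero fun b _ => ?_
    rw [Finsupp.single_apply, if_neg]
    intro h'
    exact h (Prod.ext_iff.1 h').1.symm

private theorem K6t_sum {K : Type u} [Field K] {N q m : ℕ} {ι : Type*} (s : Finset ι) (F : ι → Fm K N q m) {a : ℕ}
    {d : Fin q → ℕ} (h : ∀ c ∈ s, Mh (F c) a d) : Mh (∑ c ∈ s, F c) a d := by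
  refine ⟨fun μ => ?_, ?_⟩
  · rw [coeff_sum]
    exact IsHomogeneous.sum _ _ _ fun c hc => (h c hc).1 μ
  · exact Submodule.sum_mem _ fun c hc => (h c hc).2

private theorem K6t_sub {K : Type u} [Field K] {N q m : ℕ} {F G : Fm K N q m} {a : ℕ}
    {d : Fin q → ℕ} (hF : Mh F a d) (hG : Mh G a d) : Mh (F - G) a d := by
  refine ⟨fun μ => ?_, ?_⟩
  · rw [coeff_sub]
    exact (hF.1 μ).sub (hG.1 μ)
  · have h1 : F - G = F + (-1 : MvPolynomial (Fin (N + 1)) K) • G := by
      rw [neg_one_smul, sub_eq_add_neg]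
    rw [h1]
    exact Submodule.add_mem _ hF.2 (Submodule.smul_mem _ _ hG.2)

private theorem K6t_pow {K : Type u} [Field K] {N q m : ℕ} {F : Fm K N q m} {d : Fin q → ℕ} (hF : Mh F 0 d) (n : ℕ) :
    Mh (F ^ n) 0 (n • d) := by
  induction n with
  | zero =>
    rw [pow_zero, zero_smul, ← C_1]
    exact K6t_C (isHomogeneous_one _ _)
  | succ n ih =>
    rw [pow_succ, succ_nsmul]
    exact K6t_mul ih hF

private theorem K6t_prod {K : Type u} [Field K] {N q m : ℕ} (s : Finset (Fin q)) :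
    Mh (∏ j ∈ s, X (j, 0) : Fm K N q m) 0 (∑ j ∈ s, Pi.single j 1) := by
  classical
  induction s using Finset.induction_on with
  | empty =>
    rw [Finset.prod_empty, Finset.sum_empty, ← C_1]
    exact K6t_C (isHomogeneous_one _ _)
  | insert a s ha ih =>
    rw [Finset.prod_insert ha, Finset.sum_insert ha]
    exact K6t_mul (K6t_X a 0) ih

private theorem K6t_prod' {K : Type u} [Field K] {N q m : ℕ} (lam : Fin q → Fin (m + 1)) (a : Fin q → ℕ)
    (s : Finset (Fin q)) :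
    Mh (∏ j ∈ s, X (j, lam j) ^ a j : Fm K N q m) 0 (∑ j ∈ s, Pi.single j (a j)) := by
  classical
  induction s using Finset.induction_on with
  | empty =>
    rw [Finset.prod_empty, Finset.sum_empty, ← C_1]
    exact K6t_C (isHomogeneous_one _ _)
  | insert i s hi ih =>
    rw [Finset.prod_insert hi, Finset.sum_insert hi]
    have h1 := K6t_pow (K6t_X (K := K) (N := N) (m := m) i (lam i)) (a i)
    rw [← Pi.single_smul, smul_eq_mul, mul_one] at h1
    have h2 := K6t_mul h1 ih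
    rwa [zero_add] at h2

private theorem K6t_prodU {K : Type u} [Field K] {N q m : ℕ} (lam : Fin q → Fin (m + 1)) (a : Fin q → ℕ) :
    Mh (∏ j, X (j, lam j) ^ a j : Fm K N q m) 0 a := by
  have h := K6t_prod' (K := K) (N := N) lam a Finset.univ
  rwa [Finset.univ_sum_single a] at h

private noncomputable def K6t_Phi {K : Type u} [Field K] {N q m : ℕ} (lam : Fin q → Fin (m + 1)) {r : ℕ}
    (mon : Fin r → (Fin q × Fin (m + 1)) →₀ ℕ) (Λ : Fin r → MvPolynomial (Fin (N + 1)) K) (E : ℕ)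
    (Ex : Finset (Fin q → ℕ)) (G : (Fin q → ℕ) → Fm K N q m) : Fm K N q m :=
  (∏ i, X (i, lam i)) ^ E * (∑ c, C (Λ c) * monomial (mon c) 1) - ∑ a ∈ Ex, (∏ i, X (i, 0) ^ a i) * G a

private theorem K6t_Phih {K : Type u} [Field K] {N q m : ℕ} (lam : Fin q → Fin (m + 1)) {r : ℕ}
    (mon : Fin r → (Fin q × Fin (m + 1)) →₀ ℕ) {M : Fin q → ℕ} (hmon : ∀ l i, ∑ t, mon l (i, t) = M i)
    (Λ : Fin r → MvPolynomial (Fin (N + 1)) K) {D : ℕ} (hΛ : ∀ t, (Λ t).IsHomogeneous D) (E : ℕ)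
    (Ex : Finset (Fin q → ℕ)) (hEx : ∀ a ∈ Ex, ∀ i, a i ≤ M i + E) (G : (Fin q → ℕ) → Fm K N q m)
    (hG : ∀ a ∈ Ex, Mh (G a) D (fun i => M i + E - a i)) :
    Mh (K6t_Phi lam mon Λ E Ex G) D (fun i => M i + E) := by
  classical
  refine K6t_sub ?_ ?_
  · have h1 := K6t_prodU (K := K) (N := N) lam (fun _ => E)
    have h2 : Mh (∑ t, C (Λ t) * monomial (mon t) 1 : Fm K N q m) D M := by
      refine K6t_sum _ _ fun t _ => ?_
      rw [C_mul_monomial, mul_one]
      exact K6t_mon (mon t) (hΛ t) (hmon t)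
    have h3 := K6t_mul h1 h2
    rw [zero_add, Finset.prod_pow] at h3
    have h4 : ((fun _ => E) + M : Fin q → ℕ) = fun i => M i + E := by
      funext l
      simp [add_comm]
    rwa [h4] at h3
  · refine K6t_sum _ _ fun a ha => ?_
    have h1 := K6t_mul (K6t_prodU (K := K) (N := N) (m := m) (fun _ => 0) a) (hG a ha)
    rw [zero_add] at h1
    have h4 : (a + (fun i => M i + E - a i) : Fin q → ℕ) = fun i => M i + E := by
      funext l
      have h5 := hEx a ha l
      simp only [Pi.add_apply]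
      omega
    rwa [h4] at h1

private theorem K6t_spPhi {K : Type u} [Field K] {N q m : ℕ} (lam : Fin q → Fin (m + 1)) {r : ℕ}
    (mon : Fin r → (Fin q × Fin (m + 1)) →₀ ℕ) (Λ : Fin r → MvPolynomial (Fin (N + 1)) K) (E : ℕ)
    (Ex : Finset (Fin q → ℕ)) (G : (Fin q → ℕ) → Fm K N q m)
    {L : Type u} [Field L] [Algebra K L] (x : Fin (N + 1) → L) : sp (K6t_Phi lam mon Λ E Ex G) x =
      (∏ i, X (i, lam i)) ^ E * (∑ t, C (aeval x (Λ t)) * monomial (mon t) 1) -
        ∑ a ∈ Ex, (∏ i, X (i, 0) ^ a i) * sp (G a) x := by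
  unfold sp K6t_Phi
  simp only [map_sub, map_mul, map_pow, map_sum, map_prod, map_X, map_C, map_monomial, map_one]
  rfl

private theorem K6t_val {K : Type u} [Field K] {N q m : ℕ} (lam : Fin q → Fin (m + 1)) {r : ℕ}
    (mon : Fin r → (Fin q × Fin (m + 1)) →₀ ℕ) (Λ : Fin r → MvPolynomial (Fin (N + 1)) K) (E : ℕ)
    (Ex : Finset (Fin q → ℕ)) (G : (Fin q → ℕ) → Fm K N q m)
    {L : Type u} [Field L] [Algebra K L] (x : Fin (N + 1) → L) (y : Fin q → Fin (m + 1) → L) :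
    val (K6t_Phi lam mon Λ E Ex G) x y = (∏ i, y i (lam i)) ^ E *
        (∑ t, aeval x (Λ t) * ∏ z, y z.1 z.2 ^ mon t z) - ∑ a ∈ Ex, (∏ i, y i 0 ^ a i) * val (G a) x y := by
  unfold val
  rw [K6t_spPhi]
  simp only [map_sub, map_mul, map_pow, map_sum, map_prod, eval_X, eval_C, eval_monomial, one_mul, Finsupp.prod_pow]

private theorem K6t_lift {K : Type u} [Field K] {N q m : ℕ} {Ω : Type u} [Field Ω] [Algebra K Ω]
    {x : Fin (N + 1) → Ω} (hx : x ≠ 0) {ι : Type} [Fintype ι] (M : ι → Fin q → ℕ)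
    (f : ι → MvPolynomial (Fin q × Fin (m + 1)) (kx K x)) (hf : ∀ c, f c ∈ MH (kx K x) m (M c)) :
    ∃ (D : ℕ) (ρ : MvPolynomial (Fin (N + 1)) K) (f' : ι → Fm K N q m),
      ρ.IsHomogeneous D ∧ aeval x ρ ≠ 0 ∧ (∀ c, Mh (f' c) D (M c)) ∧
      ∀ c, sp (f' c) x = C (aeval x ρ) * map (algebraMap (kx K x) Ω) (f c) := by
  classical
  let E := Fintype.equivFin ι
  obtain ⟨D, ρ, f', h1, h2, h3, h4⟩ := C2_lift hx (fun c => M (E.symm c)) (fun c => f (E.symm c)) fun c => hf _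
  refine ⟨D, ρ, fun c => f' (E c), h1, h2, fun c => ?_, fun c => ?_⟩
  · have h := h3 (E c)
    rwa [E.symm_apply_apply] at h
  · have h := h4 (E c)
    rwa [E.symm_apply_apply] at h

private theorem K6t_li {k Ω : Type*} [Field k] [Field Ω] [Algebra k Ω] {r : ℕ} (β : Fin r → Fin r → k)
    (hβ : LinearIndependent k β) {c : Ω} (hc : c ≠ 0) : LinearIndependent Ω fun l t => c * algebraMap k Ω (β l t) := by
  classical
  obtain ⟨B, hB⟩ := (Pool.Agent.Lib.MP_17a322_nt.EF.T_li_iff β).1 hβ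
  refine (Pool.Agent.Lib.MP_17a322_nt.EF.T_li_iff _).2 ⟨fun t l => c⁻¹ * algebraMap k Ω (B t l), fun s t => ?_⟩
  have h1 : ∑ l, c * algebraMap k Ω (β s l) * (c⁻¹ * algebraMap k Ω (B l t)) =
      algebraMap k Ω (∑ l, β s l * B l t) := by
    rw [map_sum]
    refine Finset.sum_congr rfl fun l _ => ?_
    rw [map_mul]
    field_simp
  rw [h1, hB s t]
  split_ifs
  · rw [map_one]
  · rw [map_zero]

theorem K6_bas {K : Type u} [Field K] [CharZero K] {N q m κ : ℕ} (A : AV K N)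
    (H : Fin κ → Fm K N q m) (hH : ∀ j, ∃ a d, Mh (H j) a d)
    {Ω : Type u} [Field Ω] [IsAlgClosed Ω] [Algebra K Ω] (P₀ : A.Pts Ω) (hP₀ : Gen A P₀)
    (Q : Finset (Fin q))
    (hreg : ∀ J : Finset (Fin q), J ⊆ Q → ∀ i ∈ Q, i ∉ J → ∀ f : MvPolynomial (Fin q × Fin (m + 1)) Ω,
      X (i, 0) * f ∈ sat (cut (fib H (A.x P₀)) J) → f ∈ sat (cut (fib H (A.x P₀)) J))
    (h : Fin κ → MvPolynomial (Fin q × Fin (m + 1)) (kx K (A.x P₀)))
    (hh : ∀ j, ∃ d, h j ∈ MH (kx K (A.x P₀)) m d) (hI : IΩ h Ω = fib H (A.x P₀))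
    {M W : Fin q → ℕ} (C : ChainQ h Q M W) (B : ℕ) :
    Nonempty (BasC A H Q M W B (hf (Ik h) M)) := by
  classical
  have hx : A.x P₀ ≠ 0 := A.x_ne P₀
  obtain ⟨mon, hmd, hmli, hm⟩ := K6_main hh (fun lam => K5_reg h Ω Q (by rw [hI]; exact hreg) lam) C
  choose β w hβ hw hm2 using fun b : Ind q m B => hm (fun i => (b.1 i : ℕ)) b.2
  choose E Ex g hEw hEle hgm hrel using hm2
  generalize hf (Ik h) M = r at *
  obtain ⟨D, ρ₀, f', hρ₀, hρn, hf'm, hf'sp⟩ := K6t_lift (m := m) hx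
    (Sum.elim (fun _ => 0) (fun z => fun i => M i + E z.1 z.2.1 - z.2.2.1 i) :
      (Ind q m B × Fin r × Fin r) ⊕ (Σ b : Ind q m B, Σ l : Fin r, {a // a ∈ Ex b l}) → Fin q → ℕ)
    (Sum.elim (fun z => MvPolynomial.C (β z.1 z.2.1 z.2.2)) (fun z => g z.1 z.2.1 z.2.2.1)) (by
      rintro (z | z)
      · intro μ hμ i
        have h6 : μ = 0 := by
          by_contra hne
          rw [Sum.elim_inl, mem_support_iff, coeff_C, if_neg (Ne.symm hne)] at hμ
          exact hμ rfl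
        rw [h6]
        simp
      · exact hgm z.1 z.2.1 z.2.2.1 z.2.2.2)
  obtain ⟨Λ, hΛ⟩ : ∃ Λ : Ind q m B → Fin r → Fin r → MvPolynomial (Fin (N + 1)) K,
    ∀ i l t, Λ i l t = coeff 0 (f' (Sum.inl (i, l, t))) := ⟨_, fun _ _ _ => rfl⟩
  obtain ⟨G, hG⟩ : ∃ G : Ind q m B → Fin r → (Fin q → ℕ) → Fm K N q m, ∀ b l a (ha : a ∈ Ex b l),
      G b l a = f' (Sum.inr ⟨b, l, ⟨a, ha⟩⟩) := by
    refine ⟨fun b l a => if ha : a ∈ Ex b l then f' (Sum.inr ⟨b, l, ⟨a, ha⟩⟩) else 0, fun b l a ha => ?_⟩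
    exact dif_pos ha
  have hΛh : ∀ i l t, (Λ i l t).IsHomogeneous D := by
    intro i l t
    rw [hΛ]
    exact (hf'm _).1 0
  have hΛv : ∀ i l t, aeval (A.x P₀) (Λ i l t) = aeval (A.x P₀) ρ₀ * algebraMap (kx K (A.x P₀)) Ω (β i l t) := by
    intro i l t
    have h6 := congrArg (coeff 0) (hf'sp (Sum.inl (i, l, t)))
    rw [Sum.elim_inl, map_C, coeff_C_mul, coeff_C, if_pos rfl, sp, coeff_map] at h6
    rw [hΛ]
    exact h6
  have hGm : ∀ b l, ∀ a ∈ Ex b l, Mh (G b l a) D (fun i => M i + E b l - a i) := by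
    intro b l a ha
    rw [hG b l a ha]
    exact hf'm (Sum.inr ⟨b, l, ⟨a, ha⟩⟩)
  have hGv : ∀ b l, ∀ a ∈ Ex b l, sp (G b l a) (A.x P₀) =
      MvPolynomial.C (aeval (A.x P₀) ρ₀) * map (algebraMap (kx K (A.x P₀)) Ω) (g b l a) := by
    intro b l a ha
    rw [hG b l a ha]
    exact hf'sp (Sum.inr ⟨b, l, ⟨a, ha⟩⟩)
  have hΦ : ∀ b l, Mh (K6t_Phi b.2 mon (Λ b l) (E b l) (Ex b l) (G b l)) D (fun z => M z + E b l) := fun b l =>
    K6t_Phih b.2 mon hmd (Λ b l) (hΛh b l) (E b l) (Ex b l) (hEle b l) (G b l) (hGm b l)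
  have h0 : ∀ (b : Ind q m B) l, sp (K6t_Phi b.2 mon (Λ b l) (E b l) (Ex b l) (G b l)) (A.x P₀) ∈ fib H (A.x P₀) := by
    intro b l
    rw [← hI]
    have h6 := (B1_mem (Ω := Ω) h _).2 (hrel b l)
    have h7 : sp (K6t_Phi b.2 mon (Λ b l) (E b l) (Ex b l) (G b l)) (A.x P₀) = MvPolynomial.C (aeval (A.x P₀) ρ₀) *
        map (algebraMap (kx K (A.x P₀)) Ω) ((∏ i, X (i, b.2 i)) ^ E b l *
              (∑ t, MvPolynomial.C (β b l t) * monomial (mon t) 1) -
                ∑ a ∈ Ex b l, (∏ i, X (i, 0) ^ a i) * g b l a) := by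
      rw [K6t_spPhi]
      simp only [map_sub, map_mul, map_pow, map_sum, map_prod, map_X, map_C, map_monomial, map_one,
        hΛv, mul_sub]
      have h8 : (∑ t, MvPolynomial.C (aeval (A.x P₀) ρ₀) *
            MvPolynomial.C (algebraMap (kx K (A.x P₀)) Ω (β b l t)) * monomial (mon t) (1 : Ω)) =
          MvPolynomial.C (aeval (A.x P₀) ρ₀) *
            ∑ t, MvPolynomial.C (algebraMap (kx K (A.x P₀)) Ω (β b l t)) * monomial (mon t) (1 : Ω) := by
        rw [Finset.mul_sum]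
        refine Finset.sum_congr rfl fun t _ => ?_
        rw [mul_assoc]
      have h9 : ∑ a ∈ Ex b l, (∏ i, X (i, 0) ^ a i) * sp (G b l a) (A.x P₀) =
          MvPolynomial.C (aeval (A.x P₀) ρ₀) *
            ∑ a ∈ Ex b l, (∏ i, X (i, 0) ^ a i) * map (algebraMap (kx K (A.x P₀)) Ω) (g b l a) := by
        rw [Finset.mul_sum]
        refine Finset.sum_congr rfl fun a ha => ?_
        rw [hGv b l a ha]
        ring
      rw [h8, h9]
      ring
    rw [h7]
    exact Ideal.mul_mem_left _ _ h6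
  choose R ρ hRh hRn hRv using fun b l => C3_tr A H hH P₀ hP₀ (hΦ b l) (h0 b l)
  exact ⟨{
    mon := mon
    D := D
    Λ := Λ
    x := w
    x_sum := hw
    E := E
    Ex := Ex
    Ex_w := hEw
    Ex_le := hEle
    G := G
    R := ∏ i, ∏ l, R i l
    ρ := ∑ i, ∑ l, ρ i l
    mon_deg := hmd
    mon_li := by
      intro L _ _ _ P hP u hu
      refine C3_ind A H hH P₀ hP₀ (M := M) (fun l => (monomial (mon l) 1 : MvPolynomial (Fin q × Fin (m + 1)) K))
        (fun l μ hμ i => ?_) (fun u' hu' => ?_) P hP u ?_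
      · have h6 : μ = mon l := by
          by_contra hne
          rw [mem_support_iff, coeff_monomial, if_neg (Ne.symm hne)] at hμ
          exact hμ rfl
        rw [h6]
        exact hmd l i
      · refine B1_li h (fun l => (monomial (mon l) 1 : MvPolynomial (Fin q × Fin (m + 1)) (kx K (A.x P₀)))) hmli u' ?_
        rw [hI]
        have h6 : ∑ c, u' c • map (algebraMap (kx K (A.x P₀)) Ω) (monomial (mon c) 1) =
            ∑ c, MvPolynomial.C (u' c) * map (algebraMap K Ω) (monomial (mon c) 1) := by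
          refine Finset.sum_congr rfl fun c _ => ?_
          rw [smul_eq_C_mul, map_monomial, map_monomial, map_one (algebraMap (kx K (A.x P₀)) Ω),
            map_one (algebraMap K Ω)]
        rw [h6]
        exact hu'
      · have h6 : ∑ c, MvPolynomial.C (u c) * map (algebraMap K L) (monomial (mon c) 1) =
            ∑ c, u c • monomial (mon c) (1 : L) := by
          refine Finset.sum_congr rfl fun c _ => ?_
          rw [map_monomial, map_one, smul_eq_C_mul]
        rw [h6]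
        exact hu
    Λ_hom := hΛh
    Λ_li := by
      intro i L _ _ P hP
      refine Pool.Agent.Lib.MP_17a322_nt.EF.T_li A (Λ i) (fun _ => D) (hΛh i) P₀ P hP₀ hP ?_
      simp only [hΛv]
      exact K6t_li (β i) (hβ i) hρn
    G_mh := hGm
    R_hom := IsHomogeneous.prod _ _ _ fun i _ => IsHomogeneous.prod _ _ _ fun l _ => hRh i l
    R_notMem := by
      have hpr : A.I.IsPrime := Z_prime A
      have h6 : ∏ i, ∏ l, R i l ∈ A.I.primeCompl :=
        Submonoid.prod_mem _ fun i _ => Submonoid.prod_mem _ fun l _ => hRn i l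
      exact h6
    rel := by
      intro L _ _ P y hy b l
      rw [← K6t_val b.2 mon (Λ b l) (E b l) (Ex b l) (G b l) (A.x P) y]
      have h6 := hRv b l L P y hy
      rw [← Finset.mul_prod_erase Finset.univ (fun i => ∏ l, R i l) (Finset.mem_univ b),
        ← Finset.mul_prod_erase Finset.univ (fun l => R b l) (Finset.mem_univ l), map_mul, map_mul]
      linear_combination (aeval (A.x P) (∏ x ∈ Finset.univ.erase l, R b x) *
        aeval (A.x P) (∏ x ∈ Finset.univ.erase b, ∏ l, R x l)) * h6 }⟩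

end UTC
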