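import Pool.Agent.Lib.MP_17a322_ntTA.A3

/-!
Leaf J8 (numbers): the sums of the dimensions of a filtration, and the grid of the directions.
-/

set_option autoImplicit false

namespace UTA

/-- A chain whose codimension grows by at most `d` in every step, `q M d ≤ (1 + ε) n r`: the sum of the dimensions
is at least `(1 - η) q r M / (2 n)`. -/
theorem J8_W {q n : ℕ} (hq : 0 < q) (hn : 0 < n) (η : ℝ) (hη : 0 < η) :
    ∃ (B : ℕ) (ε : ℝ), 0 < ε ∧ ∀ (M r d J : ℕ) (f : ℕ → ℕ), B ≤ M → r ≤ J → q * M ≤ J →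
      (∀ j, r ≤ f j + j * d) → (q : ℝ) * M * d ≤ (1 + ε) * n * r →
      (1 - η) * (q * r * M) / (2 * n) ≤ ((∑ j ∈ Finset.Icc 1 J, f j : ℕ) : ℝ) := by
  have hqR : (1 : ℝ) ≤ q := by exact_mod_cast hq
  have hnR : (1 : ℝ) ≤ n := by exact_mod_cast hn
  obtain ⟨B, hB⟩ := exists_nat_gt (2 * n / η)
  refine ⟨B, η / 2, by positivity, fun M r d J f hM hrJ hqJ hf hd => ?_⟩
  have hM1 : 2 * n / η < (M : ℝ) := lt_of_lt_of_le hB (by exact_mod_cast hM)
  have hM0 : (0 : ℝ) ≤ M := Nat.cast_nonneg M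
  have hr0 : (0 : ℝ) ≤ r := Nat.cast_nonneg r
  rcases Nat.eq_zero_or_pos d with h0 | h0
  · subst h0
    have h1 : J * r ≤ ∑ j ∈ Finset.Icc 1 J, f j := by
      calc J * r = ∑ _j ∈ Finset.Icc 1 J, r := by
            rw [Finset.sum_const, Nat.card_Icc, Nat.add_sub_cancel, smul_eq_mul]
        _ ≤ ∑ j ∈ Finset.Icc 1 J, f j := Finset.sum_le_sum fun j _ => by simpa using hf j
    have h2 : q * M * r ≤ ∑ j ∈ Finset.Icc 1 J, f j := (Nat.mul_le_mul_right r hqJ).trans h1
    have h3 : (q : ℝ) * M * r ≤ ((∑ j ∈ Finset.Icc 1 J, f j : ℕ) : ℝ) := by exact_mod_cast h2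
    refine le_trans ?_ h3
    rw [div_le_iff₀ (by positivity)]
    have h4 : 0 ≤ (q : ℝ) * M * r := by positivity
    nlinarith [mul_nonneg hη.le h4, mul_nonneg h4 (by linarith : (0 : ℝ) ≤ n - 1)]
  · have h1 := A3_sum h0 f hf
    have h2 : ∑ j ∈ Finset.Icc 1 r, f j ≤ ∑ j ∈ Finset.Icc 1 J, f j :=
      Finset.sum_le_sum_of_subset (Finset.Icc_subset_Icc_right hrJ)
    have h3 : r * r ≤ d * (2 * ∑ j ∈ Finset.Icc 1 J, f j + r) :=
      h1.trans (Nat.mul_le_mul_left d (by omega))
    obtain ⟨s, hs⟩ : ∃ s : ℕ, s = ∑ j ∈ Finset.Icc 1 J, f j := ⟨_, rfl⟩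
    rw [← hs] at h3 ⊢
    have h4 : (r : ℝ) * r ≤ d * (2 * s + r) := by exact_mod_cast h3
    have hs0 : (0 : ℝ) ≤ s := Nat.cast_nonneg s
    rcases eq_or_lt_of_le hr0 with h5 | h5
    · rw [← h5]
      simp
    · -- multiply with `q M` and divide by `r`
      have hqM : 0 < (q : ℝ) * M := by
        have : 0 < (M : ℝ) := lt_of_le_of_lt (by positivity) hM1
        positivity
      have h6 : (q : ℝ) * M * (r * r) ≤ ((1 + η / 2) * n * r) * (2 * s + r) := by
        calc (q : ℝ) * M * (r * r) ≤ (q : ℝ) * M * (d * (2 * s + r)) :=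
              mul_le_mul_of_nonneg_left h4 hqM.le
          _ = ((q : ℝ) * M * d) * (2 * s + r) := by ring
          _ ≤ _ := mul_le_mul_of_nonneg_right hd (by linarith)
      have h7 : (q : ℝ) * M * r ≤ ((1 + η / 2) * n) * (2 * s + r) := by
        have h8 : ((q : ℝ) * M * r) * r ≤ (((1 + η / 2) * n) * (2 * s + r)) * r := by
          calc ((q : ℝ) * M * r) * r = (q : ℝ) * M * (r * r) := by ring
            _ ≤ _ := h6
            _ = (((1 + η / 2) * n) * (2 * s + r)) * r := by ring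
        exact le_of_mul_le_mul_right h8 h5
      have h8 : 2 * (n : ℝ) < η * M := by
        rw [div_lt_iff₀ hη] at hM1
        linarith
      have h9 : (n : ℝ) ≤ (q : ℝ) * M * (η / 2) := by
        have : η * M ≤ q * (η * M) := by
          have h10 : 0 ≤ η * (M : ℝ) := by positivity
          nlinarith
        nlinarith
      rw [div_le_iff₀ (by positivity)]
      -- goal: (1 - η) q r M ≤ s * (2 n)
      rcases le_or_gt η 1 with h1η | h1η
      · have e1 : (q : ℝ) * M * r * (1 - η / 2) ≤ n * (2 * s + r) := by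
          have e2 : (1 - η / 2) * (1 + η / 2) ≤ 1 := by nlinarith [sq_nonneg η]
          calc (q : ℝ) * M * r * (1 - η / 2) ≤ (((1 + η / 2) * n) * (2 * s + r)) * (1 - η / 2) :=
                mul_le_mul_of_nonneg_right h7 (by linarith)
            _ = ((1 - η / 2) * (1 + η / 2)) * (n * (2 * s + r)) := by ring
            _ ≤ 1 * (n * (2 * s + r)) := mul_le_mul_of_nonneg_right e2 (by positivity)
            _ = n * (2 * s + r) := one_mul _
        have e3 : (n : ℝ) * r ≤ (q : ℝ) * M * (η / 2) * r := mul_le_mul_of_nonneg_right h9 hr0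
        nlinarith
      · have e1 : (1 - η) * ((q : ℝ) * r * M) ≤ 0 :=
          mul_nonpos_of_nonpos_of_nonneg (by linarith) (by positivity)
        have e2 : 0 ≤ (s : ℝ) * (2 * n) := by positivity
        linarith

/-- Finitely many directions `t` suffice. -/
theorem J8_grid {q : ℕ} (W : Fin q → ℝ) (hW : ∀ i, 0 < W i) (η : ℝ) (hη : 0 < η) :
    ∃ M' : ℕ, ∀ lam : Fin q → ℝ, (∀ i, 0 ≤ lam i) → ∃ (t : Fin q → ℕ) (D : ℝ), 0 ≤ D ∧
      (∀ i, t i ≤ M') ∧ (∀ i, (t i : ℝ) * D ≤ lam i) ∧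
      (1 - η) * ∑ i, W i * lam i ≤ D * ∑ i, (t i : ℝ) * W i := by
  classical
  rcases Nat.eq_zero_or_pos q with h0 | h0
  · subst h0
    exact ⟨0, fun lam _ => ⟨fun _ => 0, 0, le_refl _, fun i => i.elim0, fun i => i.elim0, by simp⟩⟩
  · obtain ⟨i₀, -, hi₀⟩ := (Finset.univ : Finset (Fin q)).exists_min_image W
      ⟨⟨0, h0⟩, Finset.mem_univ _⟩
    obtain ⟨K, hK⟩ := exists_nat_gt ((∑ i, W i) / (η * W i₀))
    have hηW : 0 < η * W i₀ := mul_pos hη (hW i₀)
    have hsum : 0 < ∑ i, W i := Finset.sum_pos (fun i _ => hW i) ⟨i₀, Finset.mem_univ _⟩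
    have hK0 : (0 : ℝ) < K := lt_trans (div_pos hsum hηW) hK
    refine ⟨K, fun lam hlam => ?_⟩
    obtain ⟨m, -, hm⟩ := (Finset.univ : Finset (Fin q)).exists_max_image lam
      ⟨⟨0, h0⟩, Finset.mem_univ _⟩
    rcases eq_or_lt_of_le (hlam m) with h1 | h1
    · -- all are zero
      refine ⟨fun _ => 0, 0, le_refl _, fun i => Nat.zero_le _, fun i => by simpa using hlam i, ?_⟩
      have h2 : ∀ i, lam i = 0 := fun i =>
        le_antisymm (by rw [h1]; exact hm i (Finset.mem_univ i)) (hlam i)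
      simp [h2]
    · obtain ⟨D, hD⟩ : ∃ D : ℝ, D = lam m / K := ⟨_, rfl⟩
      have hD0 : 0 < D := by rw [hD]; exact div_pos h1 hK0
      refine ⟨fun i => ⌊lam i / D⌋₊, D, hD0.le, fun i => ?_, fun i => ?_, ?_⟩
      · refine Nat.floor_le_of_le ?_
        rw [div_le_iff₀ hD0, hD, mul_div_cancel₀ _ hK0.ne']
        exact hm i (Finset.mem_univ i)
      · have h2 := Nat.floor_le (div_nonneg (hlam i) hD0.le)
        rwa [le_div_iff₀ hD0] at h2
      · have h2 : ∀ i, W i * lam i ≤ D * ((⌊lam i / D⌋₊ : ℝ) * W i) + D * W i := by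
          intro i
          have h3 := (Nat.lt_floor_add_one (lam i / D)).le
          rw [div_le_iff₀ hD0] at h3
          nlinarith [hW i]
        have h3 : ∑ i, W i * lam i ≤ D * ∑ i, (⌊lam i / D⌋₊ : ℝ) * W i + D * ∑ i, W i := by
          rw [Finset.mul_sum, Finset.mul_sum, ← Finset.sum_add_distrib]
          exact Finset.sum_le_sum fun i _ => h2 i
        have h4 : D * ∑ i, W i ≤ η * ∑ i, W i * lam i := by
          have h5 : W m * lam m ≤ ∑ i, W i * lam i :=
            Finset.single_le_sum (f := fun i => W i * lam i)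
              (fun i _ => mul_nonneg (hW i).le (hlam i)) (Finset.mem_univ m)
          have h6 : W i₀ * lam m ≤ W m * lam m :=
            mul_le_mul_of_nonneg_right (hi₀ m (Finset.mem_univ m)) (hlam m)
          have h7 : ∑ i, W i ≤ K * (η * W i₀) := by
            rw [div_lt_iff₀ hηW] at hK
            exact hK.le
          have h8 : D * ∑ i, W i ≤ D * (K * (η * W i₀)) := mul_le_mul_of_nonneg_left h7 hD0.le
          have h9 : D * (K * (η * W i₀)) = η * (W i₀ * lam m) := by
            rw [hD]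
            field_simp
          rw [h9] at h8
          refine h8.trans (mul_le_mul_of_nonneg_left (h6.trans h5) hη.le)
        linarith

/-- Finitely many directions `t` suffice, general form: the weights may be zero. -/
theorem J8_grid0 {q : ℕ} (W : Fin q → ℝ) (hW : ∀ i, 0 ≤ W i) (η : ℝ) (hη : 0 < η) :
    ∃ M' : ℕ, ∀ lam : Fin q → ℝ, (∀ i, 0 ≤ lam i) → ∃ (t : Fin q → ℕ) (D : ℝ), 0 ≤ D ∧
      (∀ i, t i ≤ M') ∧ (∀ i, (t i : ℝ) * D ≤ lam i) ∧
      ∑ i, W i * lam i ≤ D * ∑ i, (t i : ℝ) * W i + η * ∑ i, lam i := by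
  classical
  rcases Nat.eq_zero_or_pos q with h0 | h0
  · subst h0
    exact ⟨0, fun lam _ => ⟨fun _ => 0, 0, le_refl _, fun i => i.elim0, fun i => i.elim0, by simp⟩⟩
  · obtain ⟨K, hK⟩ := exists_nat_gt ((∑ i, W i) / η)
    have hsum : 0 ≤ ∑ i, W i := Finset.sum_nonneg fun i _ => hW i
    have hK0 : (0 : ℝ) < K := lt_of_le_of_lt (div_nonneg hsum hη.le) hK
    refine ⟨K, fun lam hlam => ?_⟩
    obtain ⟨m, -, hm⟩ := (Finset.univ : Finset (Fin q)).exists_max_image lam
      ⟨⟨0, h0⟩, Finset.mem_univ _⟩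
    rcases eq_or_lt_of_le (hlam m) with h1 | h1
    · refine ⟨fun _ => 0, 0, le_refl _, fun i => Nat.zero_le _, fun i => by simpa using hlam i, ?_⟩
      have h2 : ∀ i, lam i = 0 := fun i =>
        le_antisymm (by rw [h1]; exact hm i (Finset.mem_univ i)) (hlam i)
      simp [h2]
    · obtain ⟨D, hD⟩ : ∃ D : ℝ, D = lam m / K := ⟨_, rfl⟩
      have hD0 : 0 < D := by rw [hD]; exact div_pos h1 hK0
      refine ⟨fun i => ⌊lam i / D⌋₊, D, hD0.le, fun i => ?_, fun i => ?_, ?_⟩
      · refine Nat.floor_le_of_le ?_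
        rw [div_le_iff₀ hD0, hD, mul_div_cancel₀ _ hK0.ne']
        exact hm i (Finset.mem_univ i)
      · have h2 := Nat.floor_le (div_nonneg (hlam i) hD0.le)
        rwa [le_div_iff₀ hD0] at h2
      · have h2 : ∀ i, W i * lam i ≤ D * ((⌊lam i / D⌋₊ : ℝ) * W i) + D * W i := by
          intro i
          have h3 := (Nat.lt_floor_add_one (lam i / D)).le
          rw [div_le_iff₀ hD0] at h3
          nlinarith [hW i]
        have h3 : ∑ i, W i * lam i ≤ D * ∑ i, (⌊lam i / D⌋₊ : ℝ) * W i + D * ∑ i, W i := by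
          rw [Finset.mul_sum, Finset.mul_sum, ← Finset.sum_add_distrib]
          exact Finset.sum_le_sum fun i _ => h2 i
        have h4 : D * ∑ i, W i ≤ η * ∑ i, lam i := by
          have h5 : lam m ≤ ∑ i, lam i :=
            Finset.single_le_sum (f := fun i => lam i) (fun i _ => hlam i) (Finset.mem_univ m)
          have h7 : ∑ i, W i ≤ K * η := by
            rw [div_lt_iff₀ hη] at hK
            exact hK.le
          have h8 : D * ∑ i, W i ≤ D * (K * η) := mul_le_mul_of_nonneg_left h7 hD0.le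
          have h9 : D * (K * η) = η * lam m := by
            rw [hD]
            field_simp
          rw [h9] at h8
          exact h8.trans (mul_le_mul_of_nonneg_left h5 hη.le)
        linarith

end UTA
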