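import Pool.Agent.Lib.MP_17a322_ntTA.E1
import Pool.Agent.Lib.MP_17a322_ntTC.CDefs

/-!
Leaf K7: the local estimate of a joint basis.

PROOF. `R(x) ≠ 0`, so `U ^ E * b_l = ∑ a ∈ Ex, (∏ y_(i,0) ^ a_i) * G_a(x, y)` (`rel`), `|U| = ∏ |y_i|` (`hb`). `Ex` is not empty (`b_l ≠ 0`, `y_i ≠ 0`).
`|G_a| ≤ C_a |x| ^ D ∏ |y_i| ^ (M_i + E - a_i)` (`D0_bd`), `|y_(i,0)| = |y_i| exp(-lam_i)`, `lam_i ≥ 0`: the term of `a` is at most
`C_a |x| ^ D ∏ |y_i| ^ (M_i + E) exp(-∑ a_i lam_i)` and `∑ a_i lam_i ≥ ∑ i ∈ Q, a_i lam_i ≥ Δ ∑ i ∈ Q, t_i a_i ≥ Δ x_l`. So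
`|U ^ E b_l| ≤ (∑_(b, l, a) C) |x| ^ D ∏ |y_i| ^ (M_i + E) exp(-Δ x_l)`; logarithm. `C` independent of `Δ`, `P`, `y`, `b`, `l`.
-/

set_option autoImplicit false

universe u

namespace UTC

open MvPolynomial UTA UTD
open Pool.Agent.Lib.MP_17a322_nt.VA Pool.Agent.Lib.MP_17a322_nt.SL

private theorem K7_aux {K : Type u} [Field K] {N q m : ℕ} (v : AbsoluteValue K ℝ) (D E z : ℕ) (M t : Fin q → ℕ)
    (A : Finset (Fin q → ℕ)) (G : (Fin q → ℕ) → Fm K N q m)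
    (hG : ∀ a ∈ A, (∀ i, a i ≤ M i + E) ∧ z ≤ ∑ i, t i * a i ∧ Mh (G a) D (fun i => M i + E - a i)) :
    ∃ C : ℝ, ∀ (x : Fin (N + 1) → K) (y : Fin q → Fin (m + 1) → K) (u : Fin q → Fin (m + 1)) (w : K),
      w ≠ 0 → (∀ i, y i 0 ≠ 0) → (∀ i l, v (y i l) ≤ v (y i (u i))) →
      (∏ i, y i (u i)) ^ E * w = ∑ a ∈ A, (∏ i, y i 0 ^ a i) * val (G a) x y →
      ∀ Δ : ℝ, 0 ≤ Δ → (∀ i, t i * Δ ≤ lam v (y i)) →
        z * Δ ≤ ∑ j, M j * Real.log (⨆ l, v (y j l)) + D * Real.log (⨆ a, v (x a)) - Real.log (v w) + C := by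
  classical
  have hbd : ∀ a, ∃ C : ℝ, 0 < C ∧ (a ∈ A → ∀ (x : Fin (N + 1) → K) (y : Fin q → Fin (m + 1) → K),
      v (val (G a) x y) ≤ C * (⨆ i, v (x i)) ^ D * ∏ i, (⨆ l, v (y i l)) ^ (M i + E - a i)) := by
    intro a
    by_cases ha : a ∈ A
    · obtain ⟨C, hC, h⟩ := D0_bd (hG a ha).2.2 v
      exact ⟨C, hC, fun _ => h⟩
    · exact ⟨1, one_pos, fun h => absurd h ha⟩
  choose C hC hC' using hbd
  refine ⟨|Real.log (∑ a ∈ A, C a)|, fun x y u w hw hy hu hid Δ hΔ ht => ?_⟩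
  -- the largest coordinates
  have hmax : ∀ i, (⨆ l, v (y i l)) = v (y i (u i)) := fun i =>
    le_antisymm (ciSup_le (hu i)) (le_ciSup (f := fun l => v (y i l)) (Set.finite_range _).bddAbove (u i))
  have hy0 : ∀ i, 0 < v (y i 0) := fun i => (AbsoluteValue.pos_iff v).2 (hy i)
  have hS : ∀ i, 0 < ⨆ l, v (y i l) := fun i =>
    lt_of_lt_of_le (hy0 i) (le_ciSup (f := fun l => v (y i l)) (Set.finite_range _).bddAbove 0)
  have hX0 : 0 ≤ (⨆ i, v (x i)) ^ D := pow_nonneg (Real.iSup_nonneg fun i => v.nonneg _) _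
  have hP : 0 < ∏ i, (⨆ l, v (y i l)) ^ (M i + E) := Finset.prod_pos fun i _ => pow_pos (hS i) _
  -- one term
  have h1 : ∀ a ∈ A, v ((∏ i, y i 0 ^ a i) * val (G a) x y) ≤
      C a * ((⨆ i, v (x i)) ^ D * (∏ i, (⨆ l, v (y i l)) ^ (M i + E)) * Real.exp (-(z * Δ))) := by
    intro a ha
    rw [v.map_mul, map_prod]
    have h2 : ∏ i, v (y i 0 ^ a i) = (∏ i, (⨆ l, v (y i l)) ^ a i) * Real.exp (-∑ i, a i * lam v (y i)) := by
      rw [← Finset.sum_neg_distrib, Real.exp_sum, ← Finset.prod_mul_distrib]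
      refine Finset.prod_congr rfl fun i _ => ?_
      rw [map_pow, ← mul_neg, Real.exp_nat_mul, ← mul_pow]
      congr 1
      unfold UTA.lam
      rw [neg_sub, Real.exp_sub, Real.exp_log (hy0 i), Real.exp_log (hS i), mul_div_cancel₀ _ (hS i).ne']
    have h3 : (z : ℝ) * Δ ≤ ∑ i, a i * lam v (y i) := by
      have h4 : (z : ℝ) ≤ ∑ i, (t i : ℝ) * a i := by exact_mod_cast (hG a ha).2.1
      refine (mul_le_mul_of_nonneg_right h4 hΔ).trans ?_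
      rw [Finset.sum_mul]
      refine Finset.sum_le_sum fun i _ => ?_
      have h5 := mul_le_mul_of_nonneg_left (ht i) (Nat.cast_nonneg (a i) : (0 : ℝ) ≤ a i)
      linarith
    have h6 : Real.exp (-∑ i, a i * lam v (y i)) ≤ Real.exp (-(z * Δ)) := Real.exp_le_exp.2 (neg_le_neg h3)
    have h7 : (∏ i, (⨆ l, v (y i l)) ^ a i) * ∏ i, (⨆ l, v (y i l)) ^ (M i + E - a i) =
        ∏ i, (⨆ l, v (y i l)) ^ (M i + E) := by
      rw [← Finset.prod_mul_distrib]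
      refine Finset.prod_congr rfl fun i _ => ?_
      rw [← pow_add, Nat.add_sub_cancel' ((hG a ha).1 i)]
    have h8 : 0 ≤ ∏ i, (⨆ l, v (y i l)) ^ a i := Finset.prod_nonneg fun i _ => pow_nonneg (hS i).le _
    rw [h2]
    calc (∏ i, (⨆ l, v (y i l)) ^ a i) * Real.exp (-∑ i, a i * lam v (y i)) * v (val (G a) x y)
        ≤ (∏ i, (⨆ l, v (y i l)) ^ a i) * Real.exp (-(z * Δ)) *
          (C a * (⨆ i, v (x i)) ^ D * ∏ i, (⨆ l, v (y i l)) ^ (M i + E - a i)) :=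
          mul_le_mul (mul_le_mul_of_nonneg_left h6 h8) (hC' a ha x y) (v.nonneg _)
            (mul_nonneg h8 (Real.exp_pos _).le)
      _ = C a * ((⨆ i, v (x i)) ^ D * ((∏ i, (⨆ l, v (y i l)) ^ a i) * ∏ i, (⨆ l, v (y i l)) ^ (M i + E - a i)) *
          Real.exp (-(z * Δ))) := by ring
      _ = _ := by rw [h7]
  -- the sum
  have h9 : v w * ∏ i, (⨆ l, v (y i l)) ^ E ≤
      (∑ a ∈ A, C a) * ((⨆ i, v (x i)) ^ D * (∏ i, (⨆ l, v (y i l)) ^ (M i + E)) * Real.exp (-(z * Δ))) := by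
    have h10 : v ((∏ i, y i (u i)) ^ E * w) = v w * ∏ i, (⨆ l, v (y i l)) ^ E := by
      rw [v.map_mul, map_pow, map_prod, mul_comm, ← Finset.prod_pow]
      exact congrArg _ (Finset.prod_congr rfl fun i _ => by rw [hmax i])
    rw [← h10, hid, Finset.sum_mul]
    exact (v.sum_le _ _).trans (Finset.sum_le_sum h1)
  have hPE : 0 < ∏ i, (⨆ l, v (y i l)) ^ E := Finset.prod_pos fun i _ => pow_pos (hS i) _
  have hsplit : ∏ i, (⨆ l, v (y i l)) ^ (M i + E) = (∏ i, (⨆ l, v (y i l)) ^ M i) * ∏ i, (⨆ l, v (y i l)) ^ E := by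
    rw [← Finset.prod_mul_distrib]
    exact Finset.prod_congr rfl fun i _ => pow_add _ _ _
  have hPM : 0 < ∏ i, (⨆ l, v (y i l)) ^ M i := Finset.prod_pos fun i _ => pow_pos (hS i) _
  have h11 : v w ≤ (∑ a ∈ A, C a) * ((⨆ i, v (x i)) ^ D * (∏ i, (⨆ l, v (y i l)) ^ M i) * Real.exp (-(z * Δ))) := by
    refine le_of_mul_le_mul_right ?_ hPE
    refine h9.trans (le_of_eq ?_)
    rw [hsplit]
    ring
  have hw0 : 0 < v w := (AbsoluteValue.pos_iff v).2 hw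
  have h12 : 0 < (∑ a ∈ A, C a) * ((⨆ i, v (x i)) ^ D * (∏ i, (⨆ l, v (y i l)) ^ M i) * Real.exp (-(z * Δ))) :=
    lt_of_lt_of_le hw0 h11
  have hsC : 0 ≤ ∑ a ∈ A, C a := Finset.sum_nonneg fun a _ => (hC a).le
  have h13 : 0 < (⨆ i, v (x i)) ^ D * (∏ i, (⨆ l, v (y i l)) ^ M i) * Real.exp (-(z * Δ)) :=
    pos_of_mul_pos_right h12 hsC
  have h14 : 0 < ∑ a ∈ A, C a := pos_of_mul_pos_left h12 h13.le
  have h15 : 0 < (⨆ i, v (x i)) ^ D * ∏ i, (⨆ l, v (y i l)) ^ M i := pos_of_mul_pos_left h13 (Real.exp_pos _).le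
  have h16 : 0 < (⨆ i, v (x i)) ^ D := pos_of_mul_pos_left h15 hPM.le
  have h17 := Real.log_le_log hw0 h11
  rw [Real.log_mul h14.ne' h13.ne', Real.log_mul h15.ne' (Real.exp_pos _).ne', Real.log_mul h16.ne' hPM.ne', Real.log_exp,
    Real.log_pow, Real.log_prod (fun i _ => (pow_pos (hS i) _).ne')] at h17
  simp only [Real.log_pow] at h17
  have h18 := le_abs_self (Real.log (∑ a ∈ A, C a))
  linarith

theorem K7_loc {K : Type u} [Field K] {N q m κ : ℕ} {A : AV K N} {H : Fin κ → Fm K N q m}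
    {Q : Finset (Fin q)} {M W : Fin q → ℕ} {B r : ℕ} (β : BasC A H Q M W B r) (v : AbsoluteValue K ℝ) :
    ∃ C : ℝ, ∀ (P : A.Pts K) (y : Fin q → Fin (m + 1) → K), InX H (A.x P) y → aeval (A.x P) β.R ≠ 0 →
      (∀ i, y i 0 ≠ 0) → ∀ b : Ind q m B, (∀ i, v (y i (b.2 i)) = ⨆ t, v (y i t)) →
      ∀ Δ : ℝ, 0 ≤ Δ → (∀ i ∈ Q, (b.1 i : ℝ) * Δ ≤ lam v (y i)) →
      ∀ l, ∑ c, aeval (A.x P) (β.Λ b l c) * ∏ z, y z.1 z.2 ^ β.mon c z ≠ 0 →
        (β.x b l : ℝ) * Δ ≤ ∑ j, M j * Real.log (⨆ t, v (y j t)) + β.D * Real.log (⨆ a, v (A.x P a)) -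
          Real.log (v (∑ c, aeval (A.x P) (β.Λ b l c) * ∏ z, y z.1 z.2 ^ β.mon c z)) + C := by
  classical
  have haux : ∀ (b : Ind q m B) (l : Fin r), ∃ C : ℝ, ∀ (x : Fin (N + 1) → K) (y : Fin q → Fin (m + 1) → K)
      (u : Fin q → Fin (m + 1)) (w : K),
      w ≠ 0 → (∀ i, y i 0 ≠ 0) → (∀ i l, v (y i l) ≤ v (y i (u i))) →
      (∏ i, y i (u i)) ^ β.E b l * w = ∑ a ∈ β.Ex b l, (∏ i, y i 0 ^ a i) * val (β.G b l a) x y →
      ∀ Δ : ℝ, 0 ≤ Δ → (∀ i, ((if i ∈ Q then (b.1 i : ℕ) else 0 : ℕ) : ℝ) * Δ ≤ lam v (y i)) →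
        (β.x b l : ℝ) * Δ ≤ ∑ j, M j * Real.log (⨆ l, v (y j l)) + β.D * Real.log (⨆ a, v (x a)) - Real.log (v w) + C := by
    intro b l
    refine K7_aux v β.D (β.E b l) (β.x b l) M (fun i => if i ∈ Q then (b.1 i : ℕ) else 0) (β.Ex b l) (β.G b l)
      fun a ha => ⟨β.Ex_le b l a ha, ?_, β.G_mh b l a ha⟩
    refine (β.Ex_w b l a ha).trans (le_of_eq ?_)
    rw [← Finset.sum_filter_add_sum_filter_not Finset.univ (fun i => i ∈ Q), Finset.sum_eq_zero (s := Finset.univ.filter fun i => i ∉ Q)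
      (fun i hi => by rw [if_neg (Finset.mem_filter.1 hi).2, zero_mul]), add_zero, Finset.filter_mem_eq_inter, Finset.univ_inter]
    exact Finset.sum_congr rfl fun i hi => by rw [if_pos hi]
  choose C hC using haux
  refine ⟨∑ b, ∑ l, |C b l|, fun P y hy hR hy0 b hb Δ hΔ hlam l hw => ?_⟩
  have h1 := hC b l (A.x P) y b.2 (∑ c, aeval (A.x P) (β.Λ b l c) * ∏ z, y z.1 z.2 ^ β.mon c z) hw hy0
    (fun i t => by
      rw [hb i]
      exact le_ciSup (f := fun t => v (y i t)) (Set.finite_range _).bddAbove t)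
    (by
      have h2 := β.rel K P y hy.2 b l
      exact sub_eq_zero.1 ((mul_eq_zero.1 h2).resolve_left hR)) Δ hΔ (fun i => by
      by_cases hi : i ∈ Q
      · rw [if_pos hi]
        exact hlam i hi
      · rw [if_neg hi, Nat.cast_zero, zero_mul]
        unfold UTA.lam
        have h3 : 0 < v (y i 0) := (AbsoluteValue.pos_iff v).2 (hy0 i)
        exact sub_nonneg.2 (Real.log_le_log h3 (le_ciSup (f := fun t => v (y i t)) (Set.finite_range _).bddAbove 0)))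
  have h4 : C b l ≤ ∑ b, ∑ l, |C b l| :=
    (le_abs_self _).trans ((Finset.single_le_sum (f := fun l => |C b l|) (fun l _ => abs_nonneg _) (Finset.mem_univ l)).trans
      (Finset.single_le_sum (f := fun b => ∑ l, |C b l|) (fun b _ => Finset.sum_nonneg fun l _ => abs_nonneg _)
        (Finset.mem_univ b)))
  linarith

end UTC
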