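import Pool.Agent.Lib.MP_17a322_ntTA.EstG
import Pool.Agent.Lib.MP_17a322_ntTC.K7
import Pool.Agent.Lib.MP_17a322_ntTC.J8

/-!
Leaf K9: joint bases give `EstG`.

PROOF. `s` = the number of elements of `Ind q m B` (`Fintype.equivFin`), `D`, `R`, `mon` from `β`, `T = 0`; `Λ_det` from `Λ_li` at a generic point
(`EF.T_gen`, the determinant at the generic point is not 0: see `E1_det` in `E1.lean`, private: copy). `loc`: `C = r * C₀`, `C₀` from `K7_loc`. For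
`P`, `y`: `lam_i = lam v (y i) ≥ 0`; `hB` gives `t`, `Δ`; a coordinate `a_i` with `v (y i (a i)) = ⨆`; `b = (t, a)`: sum of `K7_loc` over `l`:
`∑_l x_l Δ ≥ Δ ∑ i ∈ Q, t_i W_i ≥ ∑ i ∈ Q, (W_i - η) lam_i = r * ∑ g i * lam_i`.
`K9_grid`: `J8_grid0` with `W i` for `i ∈ Q`, `0` otherwise, applied to `lam` on `Q` and `0` otherwise.
-/

set_option autoImplicit false

universe u

namespace UTC

open MvPolynomial UTA UTD
open Pool.Agent.Lib.MP_17a322_nt.VA Pool.Agent.Lib.MP_17a322_nt.SL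

theorem K9_grid {q : ℕ} (Q : Finset (Fin q)) (W : Fin q → ℕ) (η : ℝ) (hη : 0 < η) :
    ∃ B : ℕ, ∀ lam : Fin q → ℝ, (∀ i, 0 ≤ lam i) → ∃ (t : Fin q → Fin (B + 1)) (Δ : ℝ), 0 ≤ Δ ∧
      (∀ i ∈ Q, (t i : ℝ) * Δ ≤ lam i) ∧
      ∑ i ∈ Q, ((W i : ℝ) - η) * lam i ≤ Δ * ((∑ i ∈ Q, (t i : ℕ) * W i : ℕ) : ℝ) := by
  classical
  obtain ⟨B, hB⟩ := J8_grid0 (fun i => if i ∈ Q then (W i : ℝ) else 0) (fun i => by
    split_ifs
    · exact Nat.cast_nonneg _
    · exact le_refl _) η hη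
  refine ⟨B, fun lam hlam => ?_⟩
  obtain ⟨t, Δ, h0, h1, h2, h3⟩ := hB (fun i => if i ∈ Q then lam i else 0) fun i => by
    split_ifs
    · exact hlam i
    · exact le_refl _
  refine ⟨fun i => ⟨t i, Nat.lt_succ_of_le (h1 i)⟩, Δ, h0, fun i hi => ?_, ?_⟩
  · have h4 := h2 i
    simp only [if_pos hi] at h4
    exact h4
  · have e1 : ∑ i, (if i ∈ Q then (W i : ℝ) else 0) * (if i ∈ Q then lam i else 0) =
        ∑ i ∈ Q, (W i : ℝ) * lam i := by
      rw [← Finset.sum_filter_add_sum_filter_not Finset.univ (fun i => i ∈ Q)]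
      rw [Finset.sum_eq_zero (s := Finset.univ.filter fun i => ¬ i ∈ Q) fun i hi => by
        rw [if_neg (Finset.mem_filter.1 hi).2, zero_mul]]
      rw [add_zero, Finset.filter_mem_eq_inter, Finset.univ_inter]
      exact Finset.sum_congr rfl fun i hi => by rw [if_pos hi, if_pos hi]
    have e2 : ∑ i, (t i : ℝ) * (if i ∈ Q then (W i : ℝ) else 0) =
        ((∑ i ∈ Q, t i * W i : ℕ) : ℝ) := by
      push_cast
      rw [← Finset.sum_filter_add_sum_filter_not Finset.univ (fun i => i ∈ Q)]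
      rw [Finset.sum_eq_zero (s := Finset.univ.filter fun i => ¬ i ∈ Q) fun i hi => by
        rw [if_neg (Finset.mem_filter.1 hi).2, mul_zero]]
      rw [add_zero, Finset.filter_mem_eq_inter, Finset.univ_inter]
      exact Finset.sum_congr rfl fun i hi => by rw [if_pos hi]
    have e3 : ∑ i, (if i ∈ Q then lam i else 0) = ∑ i ∈ Q, lam i := by
      rw [← Finset.sum_filter_add_sum_filter_not Finset.univ (fun i => i ∈ Q)]
      rw [Finset.sum_eq_zero (s := Finset.univ.filter fun i => ¬ i ∈ Q) fun i hi => by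
        rw [if_neg (Finset.mem_filter.1 hi).2]]
      rw [add_zero, Finset.filter_mem_eq_inter, Finset.univ_inter]
      exact Finset.sum_congr rfl fun i hi => by rw [if_pos hi]
    rw [e1, e2, e3] at h3
    have e4 : ∑ i ∈ Q, ((W i : ℝ) - η) * lam i = ∑ i ∈ Q, (W i : ℝ) * lam i - η * ∑ i ∈ Q, lam i := by
      rw [Finset.mul_sum, ← Finset.sum_sub_distrib]
      exact Finset.sum_congr rfl fun i _ => by ring
    rw [e4]
    change _ ≤ Δ * ((∑ i ∈ Q, t i * W i : ℕ) : ℝ)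
    linarith

private theorem K9_det {K : Type u} [Field K] {N r : ℕ} (A : AV K N)
    (Λ : Fin r → Fin r → MvPolynomial (Fin (N + 1)) K)
    (h : ∀ (L : Type u) [Field L] [Algebra K L] (P : A.Pts L), Gen A P →
      LinearIndependent L fun l t => aeval (A.x P) (Λ l t)) : (Matrix.of Λ).det ∉ A.I := by
  intro hd
  obtain ⟨L, _, _, _, P, hP⟩ := Pool.Agent.Lib.MP_17a322_nt.EF.T_gen A
  have h1 := A.x_isPt P _ hd
  rw [AlgHom.map_det] at h1
  have h4 : IsUnit ((aeval (A.x P) : MvPolynomial (Fin (N + 1)) K →ₐ[K] L).mapMatrix (Matrix.of Λ)) :=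
    Matrix.linearIndependent_rows_iff_isUnit.1 (h L P hP)
  rw [Matrix.isUnit_iff_isUnit_det, h1] at h4
  exact not_isUnit_zero h4

theorem K9_est {K : Type u} [Field K] [CharZero K] {N q m κ : ℕ} {A : AV K N} {H : Fin κ → Fm K N q m}
    {Q : Finset (Fin q)} {M W : Fin q → ℕ} {B r : ℕ} (hr : 0 < r) (β : BasC A H Q M W B r) (η : ℝ)
    (hB : ∀ lam : Fin q → ℝ, (∀ i, 0 ≤ lam i) → ∃ (t : Fin q → Fin (B + 1)) (Δ : ℝ), 0 ≤ Δ ∧
      (∀ i ∈ Q, (t i : ℝ) * Δ ≤ lam i) ∧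
      ∑ i ∈ Q, ((W i : ℝ) - η) * lam i ≤ Δ * ((∑ i ∈ Q, (t i : ℕ) * W i : ℕ) : ℝ)) :
    Nonempty (EstG A H M r fun i => if i ∈ Q then ((W i : ℝ) - η) / r else 0) := by
  classical
  obtain ⟨σ⟩ : Nonempty (Fin (Fintype.card (Ind q m B)) ≃ Ind q m B) := ⟨(Fintype.equivFin _).symm⟩
  refine ⟨{
    mon := β.mon
    deg := β.mon_deg
    ind := β.mon_li
    s := Fintype.card (Ind q m B)
    D := β.D
    Λ := fun b => β.Λ (σ b)
    Λ_hom := fun b => β.Λ_hom (σ b)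
    Λ_det := fun b => K9_det A (β.Λ (σ b)) fun L _ _ P hP => β.Λ_li (σ b) L P hP
    d := β.ρ
    R := β.R
    R_hom := β.R_hom
    R_not := β.R_notMem
    T := 0
    loc := ?_ }⟩
  intro v
  obtain ⟨C₀, hC₀⟩ := K7_loc β v
  refine ⟨r * C₀, fun P y hy hR hy0 => ?_⟩
  obtain ⟨t, Δ, hΔ, h1, h2⟩ := hB (fun i => lam v (y i)) fun i => E0_lam v (y i) (hy0 i)
  have hmax : ∀ i, ∃ a, v (y i a) = ⨆ t, v (y i t) := fun i =>
    Set.mem_range.1 ((Set.range_nonempty _).csSup_mem (Set.finite_range fun t => v (y i t)))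
  choose a ha using hmax
  refine ⟨σ.symm (t, a), fun hne => ?_⟩
  rw [Equiv.apply_symm_apply] at hne ⊢
  have h3 : ∀ l, (β.x (t, a) l : ℝ) * Δ ≤
      (∑ j, M j * Real.log (⨆ t, v (y j t)) + β.D * Real.log (⨆ a, v (A.x P a)) -
        Real.log (v (∑ c, aeval (A.x P) (β.Λ (t, a) l c) * ∏ z, y z.1 z.2 ^ β.mon c z))) + C₀ := fun l =>
    hC₀ P y hy hR hy0 (t, a) ha Δ hΔ h1 l (hne l)
  have h4 := Finset.sum_le_sum fun (l : Fin r) (_ : l ∈ Finset.univ) => h3 l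
  rw [Finset.sum_add_distrib, Finset.sum_const, Finset.card_univ, Fintype.card_fin, nsmul_eq_mul,
    ← Finset.sum_mul] at h4
  have h5 : (r : ℝ) * ∑ i, (if i ∈ Q then ((W i : ℝ) - η) / r else 0) * lam v (y i) =
      ∑ i ∈ Q, ((W i : ℝ) - η) * lam v (y i) := by
    have hr' : (r : ℝ) ≠ 0 := Nat.cast_ne_zero.2 hr.ne'
    rw [Finset.mul_sum, ← Finset.sum_filter_add_sum_filter_not Finset.univ (fun i => i ∈ Q)]
    rw [Finset.sum_eq_zero (s := Finset.univ.filter fun i => ¬ i ∈ Q) fun i hi => by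
      rw [if_neg (Finset.mem_filter.1 hi).2, zero_mul, mul_zero]]
    rw [add_zero, Finset.filter_mem_eq_inter, Finset.univ_inter]
    refine Finset.sum_congr rfl fun i hi => ?_
    rw [if_pos hi]
    field_simp
  have h6 : Δ * ((∑ i ∈ Q, (t i : ℕ) * W i : ℕ) : ℝ) ≤ (∑ l, (β.x (t, a) l : ℝ)) * Δ := by
    rw [mul_comm]
    refine mul_le_mul_of_nonneg_right ?_ hΔ
    exact_mod_cast β.x_sum (t, a)
  rw [h5, Nat.cast_zero, zero_mul, add_zero]
  linarith

end UTC
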