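import Pool.Agent.Lib.MP_17a322_ntTB.H5
import Pool.Agent.Lib.MP_17a322_ntTC.H4
import Pool.Agent.Lib.MP_17a322_ntTC.K3
import Pool.Agent.Lib.MP_17a322_ntTC.K6t
import Pool.Agent.Lib.MP_17a322_ntTC.K9

/-!
Leaf K10: from `Vars`, `Dim` to `EstG`, with multidegrees `M` whose proportions converge to fixed weights (the hypothesis
`hE` of `finalW`, `finalI` in `Y4.lean` with `κ = q / (2 n)`).

PROOF. `EF.T_gen`: `Ω`, `P₀`; `C4_down`: `h` over `k = kx K (A.x P₀)`. `H5_lo`, `H5_up`, `H4_weights` (`h N = hf (Ik h) N`) give `w`. For `η`: a small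
`η'`; `J8_W` gives `B₀`, `ε'`; `H4_weights` gives `M ≥ max(B₀, 1, ..)`; `δ i = h M - h (M - e_i)` (natural subtraction, `q M_i δ_i ≤ (1 + ε') n r` in both cases);
`J = max r (q * max M)`; `K3_chain`; `K9_grid` gives `B`; `K6_bas`; `K9_est`: `g i = (W i - η'') / r ≥ (1 - η') q M i / (2 n) - η''`.
-/

set_option autoImplicit false

universe u

namespace UTC

open MvPolynomial UTA UTD
open Pool.Agent.Lib.MP_17a322_nt.VA Pool.Agent.Lib.MP_17a322_nt.SL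

theorem K10_all {K : Type u} [Field K] [CharZero K] {N q m κ n : ℕ} (hq : 0 < q) (hn : 0 < n) (A : AV K N)
    (H : Fin κ → Fm K N q m) (hX : Vars A H Finset.univ) (hD : Dim n A H)
    (hz : ∀ (L : Type u) [Field L] [IsAlgClosed L] [Algebra K L] (P : A.Pts L), Gen A P →
      ∀ i, ∃ y, InX H (A.x P) y ∧ y i 0 ≠ 0) :
    ∃ w : Fin q → ℝ, (∀ i, 0 < w i) ∧ ∑ i, w i = 1 ∧ ∀ η : ℝ, 0 < η →
      ∃ (M : Fin q → ℕ) (r : ℕ) (g : Fin q → ℝ), 0 < r ∧ (∀ i, |(M i : ℝ) / ∑ l, (M l : ℝ) - w i| ≤ η) ∧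
        (∀ i, ((q : ℝ) / (2 * n) - η) * M i ≤ g i) ∧ Nonempty (EstG A H M r g) := by
  classical
  obtain ⟨Ω, i1, i2, i3, P₀, hP₀⟩ := Pool.Agent.Lib.MP_17a322_nt.EF.T_gen A
  have hx : A.x P₀ ≠ 0 := A.x_ne P₀
  obtain ⟨h, hh, hI, hZ⟩ := C4_down H hX.hom hx
  have hp : (IΩ h Ω).IsPrime := by
    rw [hI]
    exact hX.prime Ω P₀ hP₀
  have hnz : ∀ i, ∃ y : Fin q → Fin (m + 1) → Ω, InZ h y ∧ y i 0 ≠ 0 := fun i => by
    obtain ⟨y, hy, hy0⟩ := hz Ω P₀ hP₀ i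
    exact ⟨y, (hZ y).2 hy, hy0⟩
  have hk : (Ik h).IsPrime := B1_prime h hp
  have h0 : ∀ i, (X (i, 0) : MvPolynomial (Fin q × Fin (m + 1)) (kx K (A.x P₀))) ∉ Ik h :=
    fun i => UTB.H5_X Ω i (hnz i)
  have lo0 : ∀ (M : Fin q → ℕ) (l : Fin q), (M l) ^ n ≤ n.factorial * hf (Ik h) M := fun M l =>
    UTB.H5_lo Ω hp (by
      rw [hI]
      exact hD.big Ω P₀ hP₀) hnz M l
  obtain ⟨C, hC⟩ := UTB.H5_up (n := n) hh Ω (by
    obtain ⟨d, hd, f, hf1, hf2⟩ := hD.le Ω P₀ hP₀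
    exact ⟨d, hd, f, hf1, fun y hy => hf2 y ((hZ y).1 hy)⟩)
  have hnf : (0 : ℝ) < n.factorial := by exact_mod_cast Nat.factorial_pos n
  obtain ⟨w, hw, hw1, hN⟩ := H4_weights hq hn (fun N => hf (Ik h) N) (1 / n.factorial) C (by positivity)
    (fun N _ l => by
      have h1 : ((N l : ℕ) : ℝ) ^ n ≤ n.factorial * (hf (Ik h) N : ℝ) := by exact_mod_cast lo0 N l
      rw [div_mul_eq_mul_div, one_mul, div_le_iff₀ hnf, mul_comm (_ : ℝ) (n.factorial : ℝ)]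
      exact h1)
    hC
  refine ⟨w, hw, hw1, fun η hη => ?_⟩
  have hqR : (0 : ℝ) < q := by exact_mod_cast hq
  have hnR : (0 : ℝ) < n := by exact_mod_cast hn
  obtain ⟨B₀, ε', hε', hJ⟩ := J8_W hq hn (η * n / q) (by positivity)
  obtain ⟨M, hMB, hMw, hMd⟩ := hN (min ε' η) (lt_min hε' hη) (max B₀ 1)
  have hM1 : ∀ i, 1 ≤ M i := fun i => le_trans (le_max_right _ _) (hMB i)
  obtain ⟨r, hr⟩ : ∃ r, r = hf (Ik h) M := ⟨_, rfl⟩
  have hr0 : 0 < r := by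
    rw [hr]
    have h1 := lo0 M ⟨0, hq⟩
    have h2 : 0 < (M ⟨0, hq⟩) ^ n := pow_pos (hM1 _) n
    exact Nat.pos_of_mul_pos_left (lt_of_lt_of_le h2 h1)
  obtain ⟨δ, hδ⟩ : ∃ δ : Fin q → ℕ, ∀ i, δ i = hf (Ik h) M - hf (Ik h) (M - Pi.single i 1) := ⟨_, fun _ => rfl⟩
  obtain ⟨W, ⟨Ch⟩, hW⟩ := K3_chain hk h0 M δ (r + q * ∑ i, M i) hM1 (fun i => by
    rw [hδ]
    omega)
  obtain ⟨B, hB⟩ := K9_grid Finset.univ W (η / 2) (by positivity)
  obtain ⟨β⟩ := K6_bas A H hX.hom P₀ hP₀ Finset.univ (hX.reg Ω P₀ hP₀) h hh hI Ch B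
  rw [← hr] at β
  refine ⟨M, r, _, hr0, fun i => (hMw i).trans (min_le_right _ _), fun i => ?_, K9_est hr0 β (η / 2) hB⟩
  rw [if_pos (Finset.mem_univ i)]
  obtain ⟨f, hf1, hf2⟩ := hW i
  have hMs : M i ≤ ∑ i, M i := Finset.single_le_sum (f := M) (fun _ _ => Nat.zero_le _) (Finset.mem_univ i)
  have h1 := hJ (M i) r (δ i) (r + q * ∑ i, M i) f (le_trans (le_max_left _ _) (hMB i)) (Nat.le_add_right _ _)
    ((Nat.mul_le_mul_left q hMs).trans (Nat.le_add_left _ _)) (fun j => by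
      rw [hr]
      exact hf1 j) (by
      have h2 := hMd i
      have h3 : (0 : ℝ) ≤ r := Nat.cast_nonneg r
      have h4 : (1 + min ε' η) * n * (hf (Ik h) M : ℝ) ≤ (1 + ε') * n * r := by
        rw [← hr]
        exact mul_le_mul_of_nonneg_right (mul_le_mul_of_nonneg_right (by linarith [min_le_left ε' η]) hnR.le) h3
      rcases le_total (hf (Ik h) (M - Pi.single i 1)) (hf (Ik h) M) with h5 | h5
      · rw [hδ, Nat.cast_sub h5]
        exact h2.trans h4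
      · rw [hδ, Nat.sub_eq_zero_of_le h5, Nat.cast_zero, mul_zero]
        positivity)
  rw [← hf2] at h1
  have hr1 : (1 : ℝ) ≤ r := by exact_mod_cast hr0
  have hMi : (1 : ℝ) ≤ M i := by exact_mod_cast hM1 i
  have hrp : (0 : ℝ) < r := by linarith
  rw [le_div_iff₀ hrp]
  have h2 : (1 - η * n / q) * (q * r * M i) / (2 * n) = (q : ℝ) / (2 * n) * M i * r - η / 2 * (M i * r) := by
    field_simp
  have h3 : η / 2 ≤ η / 2 * (M i * r) := by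
    have h4 : (1 : ℝ) ≤ M i * r := by nlinarith
    nlinarith
  rw [h2] at h1
  nlinarith

end UTC
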