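import Pool.Agent.Lib.MP_17a322_ntTA.Y4
import Pool.Agent.Lib.MP_17a322_ntTC.K10

/-!
T3: big divisors which meet properly on the generic fibre.
-/

set_option autoImplicit false

universe u

namespace UTC

open MvPolynomial UTA UTD Height NumberField
open Pool.Agent.Lib.MP_17a322_nt.VA Pool.Agent.Lib.MP_17a322_nt.SL

theorem F1_pr {K : Type u} [Field K] {N q m κ : ℕ} {A : AV K N} {H : Fin κ → Fm K N q m} {Q : Finset (Fin q)}
    (hX : Vars A H Q) : Pr A H :=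
  ⟨hX.prime, hX.ne⟩

theorem F1_pt {K : Type u} [Field K] {N q m κ : ℕ} {A : AV K N} {H : Fin κ → Fm K N q m} (hC : Pr A H)
    (L : Type u) [Field L] [IsAlgClosed L] [Algebra K L] (P : A.Pts L) (hP : Gen A P) (i : Fin q) :
    ∃ y, InX H (A.x P) y ∧ y i 0 ≠ 0 := by
  obtain ⟨y, hy, hy0⟩ := (NF.exc' hC (NF.y0' hC i)).2 L P hP
  refine ⟨y, hy, ?_⟩
  rwa [val_y0] at hy0

/-- **T3.** -/
theorem T3_main {K : Type u} [Field K] [NumberField K] {N q m κ n : ℕ} (hq : 0 < q) (hn : 0 < n) (A : AV K N)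
    (H : Fin κ → Fm K N q m) (hX : Vars A H Finset.univ) (hD : Dim n A H) :
    ∃ w : Fin q → ℝ, (∀ i, 0 < w i) ∧ ∑ i, w i = 1 ∧
      (∀ (S : Finset (FinitePlace K)) (ε : ℝ), 0 < ε → ∃ (C : ℝ) (F : Fm K N q m), Exc A H F ∧
        ∀ (P : A.Pts K) (y : Fin q → Fin (m + 1) → K), InX H (A.x P) y → val F (A.x P) y ≠ 0 →
          (∀ i, y i 0 ≠ 0) ∧
          ∑ i, w i * prox S (y i) ≤ (2 * n / q : ℝ) * ∑ i, w i * logHeight (y i) +
            ε * (∑ i, logHeight (y i) + logHeight (A.x P)) + C) ∧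
      (2 * n < q → ∀ p : Fin (N + 1) → MvPolynomial (Fin q × Fin (m + 1)) K, IsMap A H p →
        ∀ S : Finset (FinitePlace K), ∃ F : Fm K N q m, Exc A H F ∧
          {z : A.Pts K × (Fin q → Fin (m + 1) → K) | InX H (A.x z.1) z.2 ∧ (∀ i, z.2 i 0 = 1) ∧
            (∀ v ∉ S, ∀ i l, v (z.2 i l) ≤ 1) ∧ val F (A.x z.1) z.2 ≠ 0}.Finite) := by
  have hC := F1_pr hX
  obtain ⟨w, hw, hw1, hE⟩ := K10_all hq hn A H hX hD (fun L _ _ _ P hP i => F1_pt hC L P hP i)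
  have hqR : (0 : ℝ) < q := by exact_mod_cast hq
  have hnR : (0 : ℝ) < n := by exact_mod_cast hn
  have hwle : ∀ i, w i ≤ 1 := fun i => by
    rw [← hw1]
    exact Finset.single_le_sum (f := w) (fun j _ => (hw j).le) (Finset.mem_univ i)
  have hκ : (0 : ℝ) < (q : ℝ) / (2 * n) := by positivity
  refine ⟨w, hw, hw1, fun S ε hε => ?_, fun hqn p hp S => ?_⟩
  · obtain ⟨C, F, hF, hmain⟩ := finalW A H hC hκ hwle hE S ε hε
    refine ⟨C, F, hF, fun P y hy hne => ?_⟩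
    have h1 := hmain P y hy hne
    rw [inv_div] at h1
    exact h1
  · refine finalI A H hC ?_ hw hwle hE p hp S
    rw [lt_div_iff₀ (by positivity), one_mul]
    exact_mod_cast hqn

end UTC
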