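import Mathlib

/-!
# MP_17a322_nt (ample divisors on irregular varieties), block J: the ring lemma up to powers of one element
-/

set_option autoImplicit false

namespace UTA

open Finset

/-- The ideal of the products `∏ s_i ^ (a_i)`, `a_i = 0` for `i ∉ I`, `x ≤ ∑ t_i a_i`. -/
def wid {q : ℕ} {S : Type*} [CommRing S] (s : Fin q → S) (t : Fin q → ℕ) (I : Finset (Fin q)) (x : ℕ) : Ideal S :=
  Ideal.span {b | ∃ a : Fin q → ℕ, (∀ i ∉ I, a i = 0) ∧ x ≤ ∑ i, t i * a i ∧ b = ∏ i, s i ^ a i}

/-- `s i` is a nonzerodivisor modulo the `s j`, `j ∈ J`, up to powers of `g`. -/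
def Reg {q : ℕ} {S : Type*} [CommRing S] (g : S) (s : Fin q → S) : Prop :=
  ∀ (J : Finset (Fin q)) (i : Fin q), i ∉ J → ∀ f, s i * f ∈ Ideal.span (s '' (J : Set (Fin q))) →
    ∃ c : ℕ, g ^ c * f ∈ Ideal.span (s '' (J : Set (Fin q)))

section

variable {q : ℕ} {S : Type*} [CommRing S] {s : Fin q → S} {t : Fin q → ℕ}

private theorem J2_gen {I : Finset (Fin q)} {x : ℕ} (a : Fin q → ℕ) (h : x ≤ ∑ i ∈ I, t i * a i) :
    ∏ i ∈ I, s i ^ a i ∈ wid s t I x := by
  refine Ideal.subset_span ⟨fun i => if i ∈ I then a i else 0, fun i hi => if_neg hi, ?_, ?_⟩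
  · refine h.trans (le_of_eq ?_)
    refine Eq.trans ?_ (sum_subset (subset_univ I) fun i _ hi => ?_)
    · exact sum_congr rfl fun i hi => by simp only [if_pos hi]
    · simp only [if_neg hi, mul_zero]
  · refine Eq.trans ?_ (prod_subset (subset_univ I) fun i _ hi => ?_)
    · exact prod_congr rfl fun i hi => by simp only [if_pos hi]
    · simp only [if_neg hi, pow_zero]

private theorem J2_le {I : Finset (Fin q)} {x : ℕ} {K : Ideal S}
    (h : ∀ a : Fin q → ℕ, x ≤ ∑ i ∈ I, t i * a i → ∏ i ∈ I, s i ^ a i ∈ K) : wid s t I x ≤ K := by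
  refine Ideal.span_le.2 ?_
  rintro f ⟨a, ha, hx, rfl⟩
  have h1 : ∏ i, s i ^ a i = ∏ i ∈ I, s i ^ a i :=
    (prod_subset (subset_univ I) fun i _ hi => by rw [ha i hi, pow_zero]).symm
  have h2 : ∑ i, t i * a i = ∑ i ∈ I, t i * a i :=
    (sum_subset (subset_univ I) fun i _ hi => by rw [ha i hi, mul_zero]).symm
  rw [h1]
  exact h a (hx.trans (le_of_eq h2))

private theorem J2_ind {I : Finset (Fin q)} {x : ℕ} {p : S → Prop}
    (h : ∀ a : Fin q → ℕ, x ≤ ∑ i ∈ I, t i * a i → p (∏ i ∈ I, s i ^ a i)) (h0 : p 0)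
    (h1 : ∀ f g, p f → p g → p (f + g)) (h2 : ∀ r f, p f → p (r * f)) {f : S} (hf : f ∈ wid s t I x) :
    p f := by
  refine Submodule.span_induction (p := fun f _ => p f) ?_ h0 (fun f g _ _ => h1 f g)
    (fun r f _ hr => h2 r f hr) hf
  rintro f ⟨a, ha, hx, rfl⟩
  have e1 : ∏ i, s i ^ a i = ∏ i ∈ I, s i ^ a i :=
    (prod_subset (subset_univ I) fun i _ hi => by rw [ha i hi, pow_zero]).symm
  have e2 : ∑ i, t i * a i = ∑ i ∈ I, t i * a i :=
    (sum_subset (subset_univ I) fun i _ hi => by rw [ha i hi, mul_zero]).symm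
  rw [e1]
  exact h a (hx.trans (le_of_eq e2))

private theorem J2_wid_zero (I : Finset (Fin q)) : wid s t I 0 = ⊤ := by
  rw [Ideal.eq_top_iff_one]
  have h := J2_gen (s := s) (t := t) (I := I) (x := 0) (fun _ => 0) (Nat.zero_le _)
  rwa [prod_eq_one fun i _ => pow_zero _] at h

private theorem J2_wid_anti (I : Finset (Fin q)) {x y : ℕ} (h : x ≤ y) : wid s t I y ≤ wid s t I x := by
  exact J2_le fun a ha => J2_gen a (h.trans ha)

private theorem J2_wid_empty {x : ℕ} (hx : x ≠ 0) : wid s t ∅ x = ⊥ := by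
  rw [eq_bot_iff]
  refine J2_le fun a ha => ?_
  rw [sum_empty] at ha
  omega

private theorem J2_wid_sub {j : Fin q} {I : Finset (Fin q)} (hj : j ∉ I) (x : ℕ) : wid s t I x ≤ wid s t (insert j I) x := by
  refine J2_le fun a ha => ?_
  have h1 : ∀ i ∈ I, Function.update a j 0 i = a i := fun i hi =>
    Function.update_of_ne (ne_of_mem_of_not_mem hi hj) _ _
  have h := J2_gen (s := s) (t := t) (I := insert j I) (x := x) (Function.update a j 0) (by
    rw [sum_insert hj, sum_congr rfl fun i hi => by rw [h1 i hi]]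
    exact ha.trans (Nat.le_add_left _ _))
  rwa [prod_insert hj, Function.update_self, pow_zero, one_mul,
    prod_congr rfl fun i hi => by rw [h1 i hi]] at h

private theorem J2_wid_mul_pow {j : Fin q} {I : Finset (Fin q)} (hj : j ∉ I) (c x : ℕ) {f : S} (hf : f ∈ wid s t I x) :
    s j ^ c * f ∈ wid s t (insert j I) (t j * c + x) := by
  refine J2_ind (p := fun f => s j ^ c * f ∈ wid s t (insert j I) (t j * c + x))
    ?_ ?_ ?_ ?_ hf
  · intro a ha
    have h1 : ∀ i ∈ I, Function.update a j c i = a i := fun i hi =>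
      Function.update_of_ne (ne_of_mem_of_not_mem hi hj) _ _
    have h := J2_gen (s := s) (t := t) (I := insert j I) (x := t j * c + x)
      (Function.update a j c) (by
      rw [sum_insert hj, Function.update_self, sum_congr rfl fun i hi => by rw [h1 i hi]]
      exact Nat.add_le_add_left ha _)
    rwa [prod_insert hj, Function.update_self,
      prod_congr rfl fun i hi => by rw [h1 i hi]] at h
  · rw [mul_zero]
    exact Ideal.zero_mem _
  · intro f g h1 h2
    rw [mul_add]
    exact Ideal.add_mem _ h1 h2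
  · intro r f h1
    rw [mul_left_comm]
    exact Ideal.mul_mem_left _ _ h1

private theorem J2_wid_mul {j : Fin q} {I : Finset (Fin q)} (hj : j ∉ I) (x : ℕ) {f : S}
    (hf : f ∈ wid s t (insert j I) (x - t j)) : s j * f ∈ wid s t (insert j I) x := by
  refine J2_ind (p := fun f => s j * f ∈ wid s t (insert j I) x)
    ?_ ?_ ?_ ?_ hf
  · intro a ha
    have h1 : ∀ i ∈ I, Function.update a j (a j + 1) i = a i := fun i hi =>
      Function.update_of_ne (ne_of_mem_of_not_mem hi hj) _ _
    have h := J2_gen (s := s) (t := t) (I := insert j I) (x := x)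
      (Function.update a j (a j + 1)) (by
      rw [sum_insert hj] at ha ⊢
      rw [Function.update_self, sum_congr rfl fun i hi => by rw [h1 i hi], mul_add, mul_one]
      omega)
    rw [prod_insert hj, Function.update_self, prod_congr rfl fun i hi => by rw [h1 i hi],
      pow_succ'] at h
    rwa [prod_insert hj, ← mul_assoc]
  · rw [mul_zero]
    exact Ideal.zero_mem _
  · intro f g h1 h2
    rw [mul_add]
    exact Ideal.add_mem _ h1 h2
  · intro r f h1
    rw [mul_left_comm]
    exact Ideal.mul_mem_left _ _ h1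

/-- The recursion for the weight ideals. -/
private theorem J2_wid_rec {j : Fin q} {I : Finset (Fin q)} (hj : j ∉ I) (x : ℕ) {f : S} (hf : f ∈ wid s t (insert j I) x) :
    ∃ u ∈ wid s t I x, ∃ v ∈ wid s t (insert j I) (x - t j), f = u + s j * v := by
  refine J2_ind (p := fun f => ∃ u ∈ wid s t I x,
    ∃ v ∈ wid s t (insert j I) (x - t j), f = u + s j * v) ?_ ?_ ?_ ?_ hf
  · intro a ha
    rcases Nat.eq_zero_or_pos (a j) with h0 | h0
    · refine ⟨∏ i ∈ I, s i ^ a i, J2_gen a ?_, 0, Ideal.zero_mem _, ?_⟩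
      · rwa [sum_insert hj, h0, mul_zero, zero_add] at ha
      · rw [prod_insert hj, h0, pow_zero, one_mul, mul_zero, add_zero]
    · obtain ⟨c, hc⟩ : ∃ c, a j = c + 1 := ⟨a j - 1, by omega⟩
      have h1 : ∀ i ∈ I, Function.update a j c i = a i := fun i hi =>
        Function.update_of_ne (ne_of_mem_of_not_mem hi hj) _ _
      refine ⟨0, Ideal.zero_mem _, ∏ i ∈ insert j I, s i ^ Function.update a j c i,
        J2_gen _ ?_, ?_⟩
      · rw [sum_insert hj] at ha ⊢
        rw [Function.update_self, sum_congr rfl fun i hi => by rw [h1 i hi]]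
        rw [hc, mul_add, mul_one] at ha
        omega
      · have h2 : ∏ i ∈ I, s i ^ Function.update a j c i = ∏ i ∈ I, s i ^ a i :=
          prod_congr rfl fun i hi => by rw [h1 i hi]
        rw [prod_insert hj, prod_insert hj, Function.update_self, hc, pow_succ', h2, zero_add, mul_assoc]
  · exact ⟨0, Ideal.zero_mem _, 0, Ideal.zero_mem _, by rw [mul_zero, add_zero]⟩
  · rintro f g ⟨u, hu, v, hv, rfl⟩ ⟨u', hu', v', hv', rfl⟩
    exact ⟨u + u', Ideal.add_mem _ hu hu', v + v', Ideal.add_mem _ hv hv', by ring⟩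
  · rintro r f ⟨u, hu, v, hv, rfl⟩
    exact ⟨r * u, Ideal.mul_mem_left _ _ hu, r * v, Ideal.mul_mem_left _ _ hv, by ring⟩

/-- **The ring lemma.** -/
theorem J1_reg {g : S} (hs : Reg g s) (I : Finset (Fin q)) : ∀ (J : Finset (Fin q)) (i : Fin q), Disjoint I J →
    i ∉ I → i ∉ J → ∀ (x : ℕ) (f : S),
    s i * f ∈ Ideal.span (s '' (J : Set (Fin q))) ⊔ wid s t I x →
    ∃ c : ℕ, g ^ c * f ∈ Ideal.span (s '' (J : Set (Fin q))) ⊔ wid s t I x := by
  induction I using Finset.induction_on with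
  | empty =>
    intro J i _ _ hiJ x f hf
    rcases Nat.eq_zero_or_pos x with rfl | hx
    · refine ⟨0, ?_⟩
      rw [J2_wid_zero, sup_top_eq]
      trivial
    · rw [J2_wid_empty hx.ne', sup_bot_eq] at hf
      rw [J2_wid_empty hx.ne', sup_bot_eq]
      exact hs J i hiJ f hf
  | insert j I hj ih =>
    intro J i hd hiI hiJ x f hf
    rw [disjoint_insert_left] at hd
    rw [mem_insert, not_or] at hiI
    have hspan : Ideal.span (s '' ((insert j J : Finset (Fin q)) : Set (Fin q))) =
        Ideal.span {s j} ⊔ Ideal.span (s '' (J : Set (Fin q))) := by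
      rw [coe_insert, Set.image_insert_eq, Ideal.span_insert]
    induction x using Nat.strong_induction_on generalizing f with
    | _ x ihx =>
    rcases Nat.eq_zero_or_pos x with rfl | hx
    · refine ⟨0, ?_⟩
      rw [J2_wid_zero, sup_top_eq]
      trivial
    obtain ⟨u', hu', b, hb, hfu⟩ := Submodule.mem_sup.1 hf
    obtain ⟨v', hv', a', ha', rfl⟩ := J2_wid_rec hj x hb
    -- the first step
    have h1 : s i * f ∈ Ideal.span (s '' ((insert j J : Finset (Fin q)) : Set (Fin q))) ⊔ wid s t I x := by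
      rw [hspan, ← hfu]
      refine Ideal.add_mem _ ?_ (Ideal.add_mem _ ?_ ?_)
      · exact Submodule.mem_sup_left (Submodule.mem_sup_right hu')
      · exact Submodule.mem_sup_right hv'
      · exact Submodule.mem_sup_left (Submodule.mem_sup_left
          (Ideal.mul_mem_right _ _ (Ideal.mem_span_singleton_self _)))
    obtain ⟨c, h2⟩ := ih (insert j J) i (disjoint_insert_right.2 ⟨hj, hd.2⟩) hiI.2
      (by rw [mem_insert, not_or]; exact ⟨hiI.1, hiJ⟩) x f h1
    rw [hspan] at h2
    obtain ⟨w, hw, v, hv, hfw⟩ := Submodule.mem_sup.1 h2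
    obtain ⟨w1, hw1, u, hu, rfl⟩ := Submodule.mem_sup.1 hw
    obtain ⟨f1, rfl⟩ := Ideal.mem_span_singleton.1 hw1
    have hbx : wid s t I x ≤ wid s t (insert j I) (x - t j) :=
      (J2_wid_anti I (Nat.sub_le _ _)).trans (J2_wid_sub hj _)
    -- the second step
    have h3 : s j * (s i * f1 - g ^ c * a') ∈ Ideal.span (s '' (J : Set (Fin q))) ⊔ wid s t I x := by
      have e : s j * (s i * f1 - g ^ c * a') = g ^ c * u' + g ^ c * v' - s i * u - s i * v := by
        have e1 : s i * (g ^ c * f) = s i * (s j * f1 + u + v) := by rw [hfw]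
        linear_combination -e1 - g ^ c * hfu
      rw [e]
      refine Ideal.sub_mem _ (Ideal.sub_mem _ (Ideal.add_mem _ ?_ ?_) ?_) ?_
      · exact Submodule.mem_sup_left (Ideal.mul_mem_left _ _ hu')
      · exact Submodule.mem_sup_right (Ideal.mul_mem_left _ _ hv')
      · exact Submodule.mem_sup_left (Ideal.mul_mem_left _ _ hu)
      · exact Submodule.mem_sup_right (Ideal.mul_mem_left _ _ hv)
    obtain ⟨d, h4⟩ := ih J j hd.2 hj hd.1 x _ h3
    have h5 : s i * (g ^ d * f1) ∈ Ideal.span (s '' (J : Set (Fin q))) ⊔ wid s t (insert j I) (x - t j) := by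
      have e : s i * (g ^ d * f1) = g ^ d * (s i * f1 - g ^ c * a') + g ^ d * (g ^ c * a') := by ring
      rw [e]
      exact Ideal.add_mem _ (sup_le_sup le_rfl hbx h4)
        (Submodule.mem_sup_right (Ideal.mul_mem_left _ _ (Ideal.mul_mem_left _ _ ha')))
    rcases Nat.eq_zero_or_pos (t j) with ht | ht
    · -- weight zero
      have hI : wid s t (insert j I) x ≤ wid s t I x := by
        refine J2_le fun a ha => ?_
        rw [prod_insert hj]
        rw [sum_insert hj, ht, zero_mul, zero_add] at ha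
        exact Ideal.mul_mem_left _ _ (J2_gen a ha)
      have h6 : s i * f ∈ Ideal.span (s '' (J : Set (Fin q))) ⊔ wid s t I x :=
        sup_le_sup le_rfl hI hf
      obtain ⟨e, h7⟩ := ih J i hd.2 hiI.2 hiJ x f h6
      have h8 : Ideal.span (s '' (J : Set (Fin q))) ⊔ wid s t I x ≤
          Ideal.span (s '' (J : Set (Fin q))) ⊔ wid s t (insert j I) x := sup_le_sup le_rfl (J2_wid_sub hj x)
      exact ⟨e, h8 h7⟩
    · obtain ⟨e, h6⟩ := ihx (x - t j) (by omega) (g ^ d * f1) h5
      obtain ⟨p, hp, p', hp', hpp⟩ := Submodule.mem_sup.1 h6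
      refine ⟨e + d + c, ?_⟩
      have e1 : g ^ (e + d + c) * f = (s j * p + g ^ (e + d) * u) + (s j * p' + g ^ (e + d) * v) := by
        have e2 : g ^ (e + d + c) * f = g ^ (e + d) * (g ^ c * f) := by ring
        have e3 : g ^ (e + d) * f1 = p + p' := by rw [hpp]; ring
        rw [e2, ← hfw]
        linear_combination s j * e3
      rw [e1]
      exact Submodule.add_mem_sup
        (Ideal.add_mem _ (Ideal.mul_mem_left _ _ hp) (Ideal.mul_mem_left _ _ hu))
        (Ideal.add_mem _ (J2_wid_mul hj x hp') (Ideal.mul_mem_left _ _ (J2_wid_sub hj x hv)))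

/-- Powers of `s i` which divide an element of weight `x` (up to powers of `g`) add to the weight. -/
theorem J2_mul {q : ℕ} {S : Type*} [CommRing S] {g : S} {s : Fin q → S} (hReg : Reg g s) (t : Fin q → ℕ)
    {I : Finset (Fin q)} {i : Fin q} (hi : i ∉ I) {a x : ℕ} {f : S} (h1 : ∃ c : ℕ, s i ^ a ∣ g ^ c * f)
    (h2 : ∃ c : ℕ, g ^ c * f ∈ wid s t I x) : ∃ c : ℕ, g ^ c * f ∈ wid s t (insert i I) (t i * a + x) := by
  obtain ⟨c1, h, h1⟩ := h1
  obtain ⟨c2, h2⟩ := h2
  have h3 : ∀ (b : ℕ) (h : S), s i ^ b * h ∈ wid s t I x → ∃ c : ℕ, g ^ c * h ∈ wid s t I x := by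
    intro b
    induction b with
    | zero =>
      intro h hh
      exact ⟨0, by rw [pow_zero, one_mul] at hh ⊢; exact hh⟩
    | succ b ih =>
      intro h hh
      rw [pow_succ', mul_assoc] at hh
      have h4 := J1_reg (t := t) hReg I ∅ i (disjoint_empty_right _) hi (notMem_empty _)
        x (s i ^ b * h)
      simp only [coe_empty, Set.image_empty, Ideal.span_empty, bot_sup_eq] at h4
      obtain ⟨c, h5⟩ := h4 hh
      obtain ⟨d, h6⟩ := ih (g ^ c * h) (by rw [mul_left_comm]; exact h5)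
      exact ⟨d + c, by rw [pow_add, mul_assoc]; exact h6⟩
  obtain ⟨d, h4⟩ := h3 a (g ^ c2 * h) (by
    have e : s i ^ a * (g ^ c2 * h) = g ^ c1 * (g ^ c2 * f) := by
      rw [mul_left_comm, ← h1]
      ring
    rw [e]
    exact Ideal.mul_mem_left _ _ h2)
  refine ⟨d + c2 + c1, ?_⟩
  have e : g ^ (d + c2 + c1) * f = s i ^ a * (g ^ d * (g ^ c2 * h)) := by
    have e2 : g ^ (d + c2 + c1) * f = g ^ d * g ^ c2 * (g ^ c1 * f) := by ring
    rw [e2, h1]
    ring
  rw [e]
  exact J2_wid_mul_pow hi a x h4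

end

end UTA
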