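import Mathlib

/-!
# LEAF J3 (flag lemma)
-/

set_option autoImplicit false

open scoped BigOperators

namespace UTA

/-- **The flag lemma.** A basis adapted to a chain of subspaces and to the order given by the weights `x` of a basis. -/
theorem J3_flag {k E : Type*} [Field k] [AddCommGroup E] [Module k E] {r : ℕ}
    (b : Module.Basis (Fin r) k E) (x : Fin r → ℕ) (G : ℕ → Submodule k E) (hG0 : G 0 = ⊤) (J : ℕ) :
    ∃ (b' : Module.Basis (Fin r) k E) (e : Fin r → ℕ), (∀ l, e l ≤ J) ∧ (∀ l, b' l ∈ G (e l)) ∧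
      (∀ l, b' l ∈ Submodule.span k (b '' {l' | x l ≤ x l'})) ∧
      ∑ j ∈ Finset.Icc 1 J, Module.finrank k (G j) ≤ ∑ l, e l := by
  classical
  -- the order
  obtain ⟨σ, hσ⟩ : ∃ σ : Equiv.Perm (Fin r), ∀ i j, i ≤ j → x (σ j) ≤ x (σ i) := by
    refine ⟨Tuple.sort (fun i => OrderDual.toDual (x i)), fun i j hij => ?_⟩
    exact Tuple.monotone_sort (fun i => OrderDual.toDual (x i)) hij
  obtain ⟨B, hB⟩ : ∃ B : Module.Basis (Fin r) k E, ∀ i, B i = b (σ i) :=
    ⟨b.reindex σ.symm, fun i => by rw [Module.Basis.reindex_apply, Equiv.symm_symm]⟩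
  -- the condition: a vector of `G j` with the top coordinate `p`
  let T : ℕ → Fin r → Prop := fun j p => ∃ v ∈ G j, B.repr v p ≠ 0 ∧ ∀ i, p < i → B.repr v i = 0
  have hT0 : ∀ p, T 0 p := fun p => ⟨B p, by rw [hG0]; trivial, by simp, fun i hi => by
    rw [Module.Basis.repr_self, Finsupp.single_eq_of_ne (ne_of_gt hi)]⟩
  let e₀ : Fin r → ℕ := fun p => Nat.findGreatest (fun j => T j p) J
  have he₀ : ∀ p, T (e₀ p) p := fun p => Nat.findGreatest_spec (P := fun j => T j p) (Nat.zero_le J) (hT0 p)
  choose v hv1 hv2 hv3 using he₀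
  -- the matrix is triangular
  have hdet : IsUnit (B.det v) := by
    rw [Module.Basis.det_apply, Matrix.det_of_isUpperTriangular]
    · rw [isUnit_iff_ne_zero, Finset.prod_ne_zero_iff]
      intro p _
      exact hv2 p
    · intro i j hij
      exact hv3 j i hij
  have hli : LinearIndependent k v ∧ Submodule.span k (Set.range v) = ⊤ := (B.is_basis_iff_det).2 hdet
  let b₁ : Module.Basis (Fin r) k E := Module.Basis.mk hli.1 hli.2.ge
  have hb₁ : ∀ p, b₁ p = v p := fun p => Module.Basis.mk_apply hli.1 hli.2.ge p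
  refine ⟨b₁.reindex σ, fun l => e₀ (σ.symm l), fun l => Nat.findGreatest_le J, fun l => ?_, fun l => ?_, ?_⟩
  · rw [Module.Basis.reindex_apply, hb₁]
    exact hv1 _
  · rw [Module.Basis.reindex_apply, hb₁]
    obtain ⟨p, hp⟩ : ∃ p, p = σ.symm l := ⟨_, rfl⟩
    have hl : l = σ p := by rw [hp, Equiv.apply_symm_apply]
    rw [← hp, ← B.sum_repr (v p)]
    refine Submodule.sum_mem _ fun i _ => ?_
    rcases le_or_gt i p with h | h
    · refine Submodule.smul_mem _ _ (Submodule.subset_span ⟨σ i, ?_, (hB i).symm⟩)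
      show x l ≤ x (σ i)
      rw [hl]
      exact hσ i p h
    · rw [hv3 p i h, zero_smul]
      exact Submodule.zero_mem _
  · have key : ∀ j ∈ Finset.Icc 1 J, Module.finrank k (G j) ≤ (Finset.univ.filter fun l => j ≤ e₀ l).card := by
      intro j hj
      obtain ⟨S, hS⟩ : ∃ S : Finset (Fin r), S = Finset.univ.filter fun l => j ≤ e₀ l := ⟨_, rfl⟩
      rw [← hS]
      let f : G j →ₗ[k] (S → k) := LinearMap.pi fun i => (B.coord i.1).comp (G j).subtype
      have hf : Function.Injective f := by
        rw [← LinearMap.ker_eq_bot, LinearMap.ker_eq_bot']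
        rintro ⟨w, hw⟩ h0
        by_contra hne
        have hw0 : w ≠ 0 := fun h => hne (by simp [h])
        -- the top coordinate
        have hex : (Finset.univ.filter fun i => B.repr w i ≠ 0).Nonempty := by
          by_contra hemp
          rw [Finset.not_nonempty_iff_eq_empty, Finset.filter_eq_empty_iff] at hemp
          refine hw0 ((LinearEquiv.map_eq_zero_iff B.repr).1 (Finsupp.ext fun i => ?_))
          have := hemp (Finset.mem_univ i)
          exact not_not.1 this
        obtain ⟨p, hp, hmax⟩ := Finset.exists_max_image _ id hex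
        rw [Finset.mem_filter] at hp
        have hT : T j p := ⟨w, hw, hp.2, fun i hi => by
          by_contra h
          exact absurd (hmax i (Finset.mem_filter.2 ⟨Finset.mem_univ i, h⟩)) (not_le_of_gt hi)⟩
        have hjp : j ≤ e₀ p := Nat.le_findGreatest (P := fun j => T j p) (Finset.mem_Icc.1 hj).2 hT
        have hpS : p ∈ S := by
          rw [hS, Finset.mem_filter]
          exact ⟨Finset.mem_univ p, hjp⟩
        have h1 := congrFun h0 ⟨p, hpS⟩
        exact hp.2 h1
      have h2 := LinearMap.finrank_le_finrank_of_injective hf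
      rw [Module.finrank_fintype_fun_eq_card, Fintype.card_coe] at h2
      exact h2
    refine (Finset.sum_le_sum key).trans ?_
    have h1 : ∑ l, e₀ (σ.symm l) = ∑ l, e₀ l := Equiv.sum_comp σ.symm e₀
    rw [h1]
    simp only [Finset.card_filter]
    rw [Finset.sum_comm]
    refine Finset.sum_le_sum fun l _ => ?_
    rw [← Finset.card_filter]
    refine (Finset.card_le_card (t := Finset.Icc 1 (e₀ l)) fun j hj => ?_).trans ?_
    · rw [Finset.mem_filter, Finset.mem_Icc] at hj
      exact Finset.mem_Icc.2 ⟨hj.1.1, hj.2⟩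
    · rw [Nat.card_Icc]
      omega

end UTA
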