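import Pool.Agent.Lib.MP_17a322_ntTC.J1
import Pool.Agent.Lib.MP_17a322_ntTC.J3

set_option autoImplicit false

namespace UTA

open Module

theorem wid_anti {q : ℕ} {S : Type*} [CommRing S] (s : Fin q → S) (t : Fin q → ℕ) (I : Finset (Fin q)) {x y : ℕ}
    (h : x ≤ y) : wid s t I y ≤ wid s t I x :=
  Ideal.span_mono fun _ ⟨a, h1, h2, h3⟩ => ⟨a, h1, h.trans h2, h3⟩

/-- The elements of `V` which are in the ideal up to powers of `g`. -/
def sat {k S : Type*} [Field k] [CommRing S] [Algebra k S] (g : S) (V : Submodule k S) (a : Ideal S) :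
    Submodule k V where
  carrier := {f | ∃ c : ℕ, g ^ c * (f : S) ∈ a}
  zero_mem' := ⟨0, by simp⟩
  add_mem' := by
    rintro f f' ⟨c, hc⟩ ⟨c', hc'⟩
    refine ⟨c + c', ?_⟩
    show g ^ (c + c') * ((f : S) + (f' : S)) ∈ a
    have h1 : g ^ (c + c') * ((f : S) + (f' : S)) = g ^ c' * (g ^ c * (f : S)) + g ^ c * (g ^ c' * (f' : S)) := by ring
    rw [h1]
    exact a.add_mem (a.mul_mem_left _ hc) (a.mul_mem_left _ hc')
  smul_mem' := by
    rintro z f ⟨c, hc⟩
    refine ⟨c, ?_⟩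
    show g ^ c * (z • (f : S)) ∈ a
    rw [Algebra.smul_def, mul_left_comm]
    exact a.mul_mem_left _ hc

theorem J4_basis {q : ℕ} {k S : Type*} [Field k] [CommRing S] [Algebra k S] {g : S} {s : Fin q → S}
    (hReg : Reg g s) (V : Submodule k S) [FiniteDimensional k V] (G : Fin q → ℕ → Submodule k V)
    (h0 : ∀ i, G i 0 = ⊤)
    (hs : ∀ i j, ∀ f ∈ G i j, ∃ c : ℕ, s i ^ j ∣ g ^ c * (f : S)) (J : ℕ) (t : Fin q → ℕ) (I : Finset (Fin q)) :
    ∃ (b : Module.Basis (Fin (finrank k V)) k V) (x : Fin (finrank k V) → ℕ),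
      (∀ l, ∃ c : ℕ, g ^ c * (b l : S) ∈ wid s t I (x l)) ∧
      ∑ i ∈ I, t i * ∑ j ∈ Finset.Icc 1 J, finrank k (G i j) ≤ ∑ l, x l := by
  classical
  induction I using Finset.induction_on with
  | empty =>
    refine ⟨Module.finBasis k V, fun _ => 0, fun l => ⟨0, ?_⟩, by simp⟩
    have h1 : (1 : S) ∈ wid s t ∅ 0 := Ideal.subset_span ⟨fun _ => 0, fun _ _ => rfl, Nat.zero_le _, by simp⟩
    rw [(Ideal.eq_top_iff_one _).2 h1]
    trivial
  | insert i I hi ih =>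
    obtain ⟨b, x, h1, h2⟩ := ih
    obtain ⟨b', e, h3, h4, h5, h7⟩ := J3_flag b x (G i) (h0 i) J
    refine ⟨b', fun l => t i * e l + x l, fun l => J2_mul hReg t hi (hs i _ _ (h4 l)) ?_, ?_⟩
    · have h8 : Submodule.span k (b '' {l' | x l ≤ x l'}) ≤ sat g V (wid s t I (x l)) := by
        rw [Submodule.span_le]
        rintro _ ⟨l', hl', rfl⟩
        obtain ⟨c, hc⟩ := h1 l'
        exact ⟨c, wid_anti s t I hl' hc⟩
      exact h8 (h5 l)
    · rw [Finset.sum_insert hi, Finset.sum_add_distrib, ← Finset.mul_sum]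
      exact Nat.add_le_add (Nat.mul_le_mul_left _ h7) h2

end UTA
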