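import Pool.Agent.Lib.MP_17a322_ntTA.B1
import Pool.Agent.Lib.MP_17a322_ntTC.J1

/-!
Leaf J5: the regularity of the `s_i = y_(i, 0)` on the generic fibre, from `Ω` to `k`.
-/

set_option autoImplicit false

universe u

namespace UTA

open MvPolynomial

variable {k : Type u} [Field k] {q m κ : ℕ} {Ω : Type u} [Field Ω] [Algebra k Ω]

private theorem J5_append (h : Fin κ → MvPolynomial (Fin q × Fin (m + 1)) k) (J : Finset (Fin q)) :
    ∃ (κ' : ℕ) (h' : Fin κ' → MvPolynomial (Fin q × Fin (m + 1)) k),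
      Set.range h' = Set.range h ∪ (fun j => X (j, 0)) '' (J : Set (Fin q)) := by
  have h1 : (Set.range h ∪ (fun j => X (j, 0)) '' (J : Set (Fin q)) :
      Set (MvPolynomial (Fin q × Fin (m + 1)) k)).Finite :=
    (Set.finite_range h).union (J.finite_toSet.image _)
  obtain ⟨κ', h', h2⟩ := h1.fin_param
  exact ⟨κ', h', h2.2⟩

/-- Descent from `Ω` to `k` for the ideal generated by the `h j` and the `s_j`, `j ∈ J`. -/
theorem J5_mem (h : Fin κ → MvPolynomial (Fin q × Fin (m + 1)) k) (J : Finset (Fin q))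
    (f : MvPolynomial (Fin q × Fin (m + 1)) k) :
    map (algebraMap k Ω) f ∈ IΩ h Ω ⊔ Ideal.span ((fun j => X (j, 0)) '' (J : Set (Fin q))) ↔
      f ∈ Ik h ⊔ Ideal.span ((fun j => X (j, 0)) '' (J : Set (Fin q))) := by
  obtain ⟨κ', h', h1⟩ := J5_append h J
  have h2 : Ik h' = Ik h ⊔ Ideal.span ((fun j => X (j, 0)) '' (J : Set (Fin q))) := by
    rw [Ik, Ik, ← Ideal.span_union, h1]
  have h3 : IΩ h' Ω = IΩ h Ω ⊔ Ideal.span ((fun j => X (j, 0)) '' (J : Set (Fin q))) := by
    have h4 : (Set.range fun j => map (algebraMap k Ω) (h' j)) =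
        (Set.range fun j => map (algebraMap k Ω) (h j)) ∪ (fun j => X (j, 0)) '' (J : Set (Fin q)) := by
      have h5 : (Set.range fun j => map (algebraMap k Ω) (h' j)) = (map (algebraMap k Ω)) '' (Set.range h') :=
        Set.range_comp _ _
      have h6 : (Set.range fun j => map (algebraMap k Ω) (h j)) = (map (algebraMap k Ω)) '' (Set.range h) :=
        Set.range_comp _ _
      rw [h5, h1, Set.image_union, ← h6, Set.image_image]
      simp only [map_X]
    rw [IΩ, IΩ, ← Ideal.span_union, h4]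
  rw [← h2, ← h3]
  exact B1_mem h' f

/-- The hypothesis of regularity over `Ω` gives the regularity modulo `Ik h` up to powers of the product of one
coordinate of every block. -/
theorem J5_reg (h : Fin κ → MvPolynomial (Fin q × Fin (m + 1)) k)
    (hreg : ∀ (J : Finset (Fin q)) (i : Fin q), i ∉ J → ∀ f : MvPolynomial (Fin q × Fin (m + 1)) Ω,
      X (i, 0) * f ∈ IΩ h Ω ⊔ Ideal.span ((fun j => X (j, 0)) '' (J : Set (Fin q))) →
      ∀ l : Fin q → Fin (m + 1), ∃ c : ℕ, (∏ j, X (j, l j)) ^ c * f ∈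
        IΩ h Ω ⊔ Ideal.span ((fun j => X (j, 0)) '' (J : Set (Fin q))))
    (l : Fin q → Fin (m + 1)) :
    Reg (Ideal.Quotient.mk (Ik h) (∏ j, X (j, l j))) (fun j => Ideal.Quotient.mk (Ik h) (X (j, 0))) := by
  intro J i hi f hf
  obtain ⟨f, rfl⟩ := Ideal.Quotient.mk_surjective f
  have e1 : Ideal.span ((fun j => Ideal.Quotient.mk (Ik h) (X (j, 0))) '' (J : Set (Fin q))) =
      Ideal.map (Ideal.Quotient.mk (Ik h))
        (Ideal.span ((fun j => (X (j, 0) : MvPolynomial (Fin q × Fin (m + 1)) k)) '' (J : Set (Fin q)))) := by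
    rw [Ideal.map_span, Set.image_image]
  rw [e1, ← map_mul, Ideal.mem_quotient_iff_mem_sup, sup_comm] at hf
  have h1 := (J5_mem (Ω := Ω) h J _).2 hf
  rw [map_mul, map_X] at h1
  obtain ⟨c, hc⟩ := hreg J i hi _ h1 l
  refine ⟨c, ?_⟩
  rw [e1, ← map_pow, ← map_mul, Ideal.mem_quotient_iff_mem_sup, sup_comm]
  refine (J5_mem (Ω := Ω) h J _).1 ?_
  rw [map_mul, map_pow, map_prod]
  simp only [map_X]
  exact hc

end UTA
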